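import Pool.Agent.Helper57.KNK.PK
import Pool.Agent.Helper86.CK.KM

/-!
Packed machine of the classes with tails (MP_c75db0): the tests of the families of type A and B over
the machines of depth 1 to 4.
-/

set_option autoImplicit false
noncomputable section
namespace Pool.Agent.Helper57.KNK

open Pool.Agent.Helper86.CT (Mo Mc Vx Pr)
open Pool.Agent.Helper86.CK
open Pool.Agent.Helper90.KMT (mf0 nmf)
open Pool.Agent.Helper57.KNB (FamTOK BXT BXOK FDT)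

/-- the A family of one wall -/
def fam1k : Pr Nat → FDT (Pr Nat) → Mo (PA 1) → Mo (PA 1) → Mo (PA 1) → Mo (PA 1) → Mo (PA 1) → Bool :=
  famK hC1 K1 Pool.Agent.Helper86.CT.W1
def fam2k : Pr (Pr Nat) → FDT (Pr (Pr Nat)) → Mo (PA 2) → Mo (PA 2) → Mo (PA 2) → Mo (PA 2) →
    Mo (PA 2) → Bool :=
  famK hC2 K2 Pool.Agent.Helper86.CT.W2
def fam3k : Pr (Pr (Pr Nat)) → FDT (Pr (Pr (Pr Nat))) → Mo (PA 3) → Mo (PA 3) → Mo (PA 3) →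
    Mo (PA 3) → Mo (PA 3) → Bool :=
  famK hC3 K3 Pool.Agent.Helper86.CT.W3
def fam4k : Pr (Pr (Pr (Pr Nat))) → FDT (Pr (Pr (Pr (Pr Nat)))) → Mo (PA 4) → Mo (PA 4) →
    Mo (PA 4) → Mo (PA 4) → Mo (PA 4) → Bool :=
  famK hC4 K4 Pool.Agent.Helper86.CT.W4

/-- the B tests of a near cell -/
def chB1k : BXT (PA 1) (Pr Nat) := chBK hC1 K1 Pool.Agent.Helper86.CT.W1
def chB2k : BXT (PA 2) (Pr (Pr Nat)) := chBK hC2 K2 Pool.Agent.Helper86.CT.W2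
def chB3k : BXT (PA 3) (Pr (Pr (Pr Nat))) := chBK hC3 K3 Pool.Agent.Helper86.CT.W3
def chB4k : BXT (PA 4) (Pr (Pr (Pr (Pr Nat)))) := chBK hC4 K4 Pool.Agent.Helper86.CT.W4
/-- one orientation -/
def chB1s (s : Bool) : BXT (PA 1) (Pr Nat) := chBKs s hC1 K1 Pool.Agent.Helper86.CT.W1
def chB2s (s : Bool) : BXT (PA 2) (Pr (Pr Nat)) := chBKs s hC2 K2 Pool.Agent.Helper86.CT.W2
def chB3s (s : Bool) : BXT (PA 3) (Pr (Pr (Pr Nat))) := chBKs s hC3 K3 Pool.Agent.Helper86.CT.W3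
def chB4s (s : Bool) : BXT (PA 4) (Pr (Pr (Pr (Pr Nat)))) :=
  chBKs s hC4 K4 Pool.Agent.Helper86.CT.W4

theorem fam1k_ok : FamTOK 1 lfK (nmf 0 mf0) fam1k :=
  famK_ok hC1 (AOKK hC1) UK1 (by decide) Pool.Agent.Helper57.KNB.W1_law
theorem fam2k_ok : FamTOK 2 lfK (nmf 1 (nmf 0 mf0)) fam2k :=
  famK_ok hC2 (AOKK hC2) UK2 (by decide) Pool.Agent.Helper57.KNB.W2_law
theorem fam3k_ok : FamTOK 3 lfK (nmf 2 (nmf 1 (nmf 0 mf0))) fam3k :=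
  famK_ok hC3 (AOKK hC3) UK3 (by decide) Pool.Agent.Helper57.KNB.W3_law
theorem fam4k_ok : FamTOK 4 lfK (nmf 3 (nmf 2 (nmf 1 (nmf 0 mf0)))) fam4k :=
  famK_ok hC4 (AOKK hC4) UK4 (by decide) Pool.Agent.Helper57.KNB.W4_law

theorem chB1k_ok : BXOK 1 lfK (nmf 0 mf0) chB1k :=
  chBK_ok hC1 (AOKK hC1) UK1 (by decide) Pool.Agent.Helper57.KNB.W1_law (TLWK hC1)
theorem chB2k_ok : BXOK 2 lfK (nmf 1 (nmf 0 mf0)) chB2k :=
  chBK_ok hC2 (AOKK hC2) UK2 (by decide) Pool.Agent.Helper57.KNB.W2_law (TLWK hC2)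
theorem chB3k_ok : BXOK 3 lfK (nmf 2 (nmf 1 (nmf 0 mf0))) chB3k :=
  chBK_ok hC3 (AOKK hC3) UK3 (by decide) Pool.Agent.Helper57.KNB.W3_law (TLWK hC3)
theorem chB4k_ok : BXOK 4 lfK (nmf 3 (nmf 2 (nmf 1 (nmf 0 mf0)))) chB4k :=
  chBK_ok hC4 (AOKK hC4) UK4 (by decide) Pool.Agent.Helper57.KNB.W4_law (TLWK hC4)

end Pool.Agent.Helper57.KNK
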