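import Pool.Agent.Helper57.KNK.PM
import Pool.Agent.Helper86.CK.K5

/-!
Packed machine of the classes with tails (MP_c75db0): the product of packed numbers, proofs.
-/

set_option autoImplicit false
set_option exponentiation.threshold 4000
noncomputable section
namespace Pool.Agent.Helper57.KNK

open Pool.Agent.Helper86.C75 (Z)
open Pool.Agent.Helper86.CK
open Pool.Agent.Helper90.C75 (Vt)
open Pool.Agent.Helper90.KMO (zv zv_mul)
open Pool.Agent.Helper17.KPT (FSh)

theorem alf_cons (b : Bool) (l : List Bool) : alf (b :: l) = (!b && alf l) := by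
  cases b <;> rfl

/-- a function without quadratic directions is constant -/
theorem alf_const {A : Type} {D : ℕ} {l : List Bool} {I : Vt D → A} (h : FSh D l I)
    (ha : alf l = true) (v v' : Vt D) : I v = I v' := by
  induction D generalizing l with
  | zero => rfl
  | succ D ih =>
    cases l with
    | nil => exact h.elim
    | cons b l =>
      cases b with
      | true => rw [alf_cons] at ha; simp at ha
      | false =>
        rw [alf_cons] at ha
        obtain ⟨u, i⟩ := v
        obtain ⟨u', i'⟩ := v'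
        rw [h.1 u i, h.1 u' i']
        exact ih h.2 (by simpa using ha) u u'

theorem sh1_eq (s n : ℕ) : sh1 s n = n * (1 + 2 ^ s) := by
  show n + n <<< s = _
  rw [Nat.shiftLeft_eq]
  ring

theorem odN_cons (d : DC) (l : List DC) (n : ℕ) :
    odN (d :: l) n = odN l (sh1 d.s (sh1 d.s n)) := rfl

/-- the factor of a list of directions -/
def odF : List DC → ℕ
  | [] => 1
  | d :: l => (1 + 2 ^ d.s) ^ 2 * odF l

theorem odN_eq (l : List DC) (n : ℕ) : odN l n = n * odF l := by
  induction l generalizing n with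
  | nil => exact (mul_one n).symm
  | cons d l ih =>
    rw [odN_cons, ih, sh1_eq, sh1_eq]
    show _ = n * ((1 + 2 ^ d.s) ^ 2 * odF l)
    ring

theorem mpD_eq' (f : DC → DC) (x : DC) (l : List DC) : mpD f x l = l.map f ++ [x] := by
  induction l with
  | nil => rfl
  | cons d l ih =>
    show f d :: mpD f x l = _
    rw [ih]; rfl

theorem odF_map (W : ℕ) (l : List DC) (x : DC) :
    odF (l.map (scD W) ++ [x]) = odF l * (1 + 2 ^ x.s) ^ 2 := by
  induction l with
  | nil => show (1 + 2 ^ x.s) ^ 2 * 1 = 1 * _; ring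
  | cons d l ih =>
    show (1 + 2 ^ d.s) ^ 2 * odF (l.map (scD W) ++ [x]) = (1 + 2 ^ d.s) ^ 2 * odF l * _
    rw [ih]; ring

theorem odF_CC (D : ℕ) : odF (CC D).ds = (CC D).od := by
  induction D with
  | zero => rfl
  | succ D ih =>
    have h : (CC (D + 1)).ds = (CC D).ds.map (scD (CC D).W) ++
        [nwD (CC D).w (CC D).W (CC D).o5 (CC D).o3] := mpD_eq' _ _ _
    rw [h, odF_map, ih]
    show (CC D).od * (1 + 2 ^ (CC D).w) ^ 2 = (1 + (CC D).W * (2 + (CC D).W)) * (CC D).od
    rw [CC_w, CC_W]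
    unfold Wn
    ring

theorem odN_CC (D n : ℕ) : odN (CC D).ds n = n * (CC D).od := by rw [odN_eq, odF_CC]

theorem odm_ok (D : ℕ) (z : Z) : zv (odm (CC D) z) = zv z * (CC D).od := by
  cases z with
  | p n =>
    show ((odN (CC D).ds n : ℕ) : ℤ) = (n : ℤ) * _
    rw [odN_CC]; push_cast; ring
  | m n =>
    show -((odN (CC D).ds n : ℕ) : ℤ) = -(n : ℤ) * _
    rw [odN_CC]; push_cast; ring

theorem od_mod (D : ℕ) : (CC D).od % 2 ^ 144 = 1 := by
  induction D with
  | zero => rfl
  | succ D ih =>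
    show ((1 + (CC D).W * (2 + (CC D).W)) * (CC D).od) % 2 ^ 144 = 1
    have hd : 2 ^ 144 ∣ (CC D).W := by
      rw [CC_W]
      unfold Wn
      exact pow_dvd_pow 2 (by unfold ww; nlinarith [Nat.one_le_pow D 5 (by norm_num)])
    obtain ⟨k, hk⟩ := hd
    rw [hk, Nat.mul_mod, ih]
    have e : (1 + 2 ^ 144 * k * (2 + 2 ^ 144 * k)) % 2 ^ 144 = 1 := by
      rw [mul_assoc, Nat.add_mul_mod_self_left]
      rfl
    rw [e]
    rfl

theorem low_ok {D : ℕ} {z : Z} {c : ℤ} (hz : zv z = c * (CC D).od) (hc : |c| < 2 ^ 144) :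
    zv (low z) = c := by
  have ho : 0 < (CC D).od := Nat.pos_of_ne_zero fun h => by
    have := od_mod D
    rw [h] at this
    simp at this
  have hoz : (0 : ℤ) < (CC D).od := by exact_mod_cast ho
  have key : ∀ (n : ℕ) (c : ℤ), (n : ℤ) = c * (CC D).od → c < 2 ^ 144 →
      ((n &&& B1 : ℕ) : ℤ) = c := by
    intro n c h hc
    have c0 : 0 ≤ c := by
      by_contra hneg
      have : (n : ℤ) < 0 := by rw [h]; exact mul_neg_of_neg_of_pos (not_le.mp hneg) hoz
      linarith [Int.natCast_nonneg n]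
    lift c to ℕ using c0
    have h' : n = c * (CC D).od := by exact_mod_cast h
    have hc' : c < 2 ^ 144 := by exact_mod_cast hc
    rw [B1_eq, Nat.and_two_pow_sub_one_eq_mod, h', Nat.mul_mod, od_mod, mul_one, Nat.mod_mod,
      Nat.mod_eq_of_lt hc']
  obtain ⟨c1, c2⟩ := abs_lt.mp hc
  cases z with
  | p n => exact key n c hz c2
  | m n =>
    show -((n &&& B1 : ℕ) : ℤ) = c
    have hz' : -(n : ℤ) = c * (CC D).od := hz
    rw [key n (-c) (by linarith) (by linarith)]
    ring

theorem pkZ_const (D : ℕ) (c : ℤ) : pkZ D (fun _ => c) = c * (CC D).od := by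
  have e : (fun v : Vt D => 2 ^ mi D v * c) = fun v => c * ((2 ^ mi D v : ℕ) : ℤ) := by
    funext v; push_cast; ring
  show z3 D (fun v => 2 ^ mi D v * c) = _
  rw [e, z3_mul, z3_cast, CC_od]

/-- the value of a constant packed number -/
theorem const_low {A : Type} {D : ℕ} {s : List Bool} {I : Vt D → A} (h : FSh D s I)
    (ha : alf s = true) {g : A → ℤ} {x : Z} (hx : zv x = pkZ D (fun v => g (I v)))
    (hb : ∀ v, |g (I v)| < 2 ^ 144) (v : Vt D) :
    zv x = g (I v) * (CC D).od ∧ zv (low x) = g (I v) := by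
  have e : (fun u => g (I u)) = fun _ => g (I v) := funext fun u => by rw [alf_const h ha u v]
  have hx' : zv x = g (I v) * (CC D).od := by rw [hx, e, pkZ_const]
  exact ⟨hx', low_ok hx' (hb v)⟩

def v0 : (D : ℕ) → Vt D
  | 0 => ()
  | D + 1 => (v0 D, 0)

/-- THE PRODUCT -/
theorem pm_ok {A B : Type} {D : ℕ} {s t : List Bool} {I : Vt D → A} {J : Vt D → B}
    (hI : FSh D s I) (hJ : FSh D t J) {g : A → ℤ} {h : B → ℤ} {x y : Z}
    (hx : zv x = pkZ D (fun v => g (I v))) (hy : zv y = pkZ D (fun v => h (J v)))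
    (bx : ∀ v, |g (I v)| < 2 ^ 144) (bY : ∀ v, |h (J v)| < 2 ^ 144) :
    zv (pm (CC D) s t x y) = zv x * zv y := by
  unfold pm
  cases hs : alf s with
  | true =>
    obtain ⟨h1, h2⟩ := const_low hI hs hx bx (v0 D)
    show zv (odm (CC D) (Z.mul (low x) y)) = _
    rw [odm_ok, zv_mul, h2, h1]
    ring
  | false =>
    cases ht : alf t with
    | true =>
      obtain ⟨h1, h2⟩ := const_low hJ ht hy bY (v0 D)
      show zv (odm (CC D) (Z.mul (low y) x)) = _
      rw [odm_ok, zv_mul, h2, h1]
      ring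
    | false => exact zv_mul x y

end Pool.Agent.Helper57.KNK
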