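import Pool.Agent.Helper57.KNK.QD
import Pool.Agent.Helper57.KNK.P1
import Pool.Agent.Helper86.CK.K2

/-!
Packed machine of the classes with tails (MP_c75db0): digits of the reduced sums, proofs.
-/

set_option autoImplicit false
set_option exponentiation.threshold 4000
noncomputable section
namespace Pool.Agent.Helper57.KNK

open Pool.Agent.Helper86.C75 (Z)
open Pool.Agent.Helper86.CX (andB)
open Pool.Agent.Helper86.CK
open Pool.Agent.Helper90.C75 (Vt)
open Pool.Agent.Helper90.KMO (zv zv_mul zv_add)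

/-! ### a digit -/

/-- a digit of a number with offset digits -/
theorem slot_ok {D : ℕ} {G : Vt D → ℤ} (hG : ∀ v, |G v| ≤ 2 ^ 142) {R : ℕ}
    (hR : (R : ℤ) = HB * (CC D).o5 + z3 D G) (x : ℕ) (v : Vt D) :
    ((R + Wn D * x) >>> pb D v) % 2 ^ 144 = (2 ^ 143 + G v).toNat := by
  have hHB : (HB : ℤ) = 2 ^ 143 := by rw [HB_eq]; norm_num
  induction D generalizing R x with
  | zero =>
    have e : R = (2 ^ 143 + G ()).toNat := by
      have h1 : (R : ℤ) = HB * ((1 : ℕ) : ℤ) + G () := hR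
      rw [hHB] at h1
      omega
    have h3 := abs_le.mp (hG ())
    have hlt : R < 2 ^ 144 := by
      rw [e]
      have : (2 ^ 143 + G ()).toNat < (2 ^ 144 : ℤ) := by
        rw [Int.toNat_of_nonneg (by linarith)]
        have e : (2 : ℤ) ^ 144 = 2 ^ 143 + 2 * 2 ^ 142 := by norm_num
        linarith
      exact_mod_cast this
    show ((R + 2 ^ 144 * x) >>> 0) % 2 ^ 144 = (2 ^ 143 + G ()).toNat
    rw [Nat.shiftRight_zero, Nat.add_mul_mod_self_left, Nat.mod_eq_of_lt hlt, e]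
  | succ D ih =>
    have ho : (0 : ℤ) ≤ (CC D).o5 := Int.natCast_nonneg _
    have key : ∀ g : Vt D → ℤ, (∀ v, |g v| ≤ 2 ^ 142) →
        ((HB * (CC D).o5 + z3 D g : ℤ).toNat : ℤ) = HB * (CC D).o5 + z3 D g ∧
        (HB * (CC D).o5 + z3 D g : ℤ).toNat < 2 ^ ww D := by
      intro g hg
      have hz := z3_bd (D := D) (by positivity) hg
      have h1 : ((HB * (CC D).o5 + z3 D g : ℤ).toNat : ℤ) = HB * (CC D).o5 + z3 D g := by
        refine Int.toNat_of_nonneg ?_
        have := (abs_le.mp hz).1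
        rw [hHB]
        nlinarith
      exact ⟨h1, X_lt h1 hz⟩
    obtain ⟨r0, s0⟩ := key (fun u => G (u, 0)) fun v => hG (v, 0)
    obtain ⟨r1, s1⟩ := key (fun u => G (u, 1)) fun v => hG (v, 1)
    obtain ⟨r2, s2⟩ := key (fun u => G (u, 2)) fun v => hG (v, 2)
    set R0 := (HB * (CC D).o5 + z3 D (fun u => G (u, 0)) : ℤ).toNat
    set R1 := (HB * (CC D).o5 + z3 D (fun u => G (u, 1)) : ℤ).toNat
    set R2 := (HB * (CC D).o5 + z3 D (fun u => G (u, 2)) : ℤ).toNat
    have e : R + Wn (D + 1) * x = R0 + Wn D * (R1 + Wn D * (R2 + Wn D *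
        (HB * (CC D).o5 + Wn D * (HB * (CC D).o5 + Wn D * x)))) := by
      zify
      rw [hR, CC_o5s, f5_eq, z3_succ, r0, r1, r2, Wn_succ]
      push_cast
      ring
    have sh : ∀ a y : ℕ, a < Wn D → (a + Wn D * y) >>> ww D = y := by
      intro a y ha
      rw [Nat.shiftRight_eq_div_pow]
      show (a + Wn D * y) / Wn D = y
      rw [Nat.add_mul_div_left _ _ (Wn_pos D), Nat.div_eq_of_lt ha, zero_add]
    rw [e]
    obtain ⟨u, i⟩ := v
    fin_cases i
    · show ((R0 + Wn D * _) >>> (pb D u + 0 * ww D)) % 2 ^ 144 = (2 ^ 143 + G (u, 0)).toNat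
      rw [zero_mul, add_zero]
      exact ih (fun v => hG (v, 0)) r0 _ u
    · show ((R0 + Wn D * _) >>> (pb D u + 1 * ww D)) % 2 ^ 144 = (2 ^ 143 + G (u, 1)).toNat
      rw [one_mul, Nat.add_comm (pb D u), Nat.shiftRight_add, sh _ _ s0]
      exact ih (fun v => hG (v, 1)) r1 _ u
    · show ((R0 + Wn D * _) >>> (pb D u + 2 * ww D)) % 2 ^ 144 = (2 ^ 143 + G (u, 2)).toNat
      rw [two_mul, Nat.add_comm (pb D u), Nat.shiftRight_add, Nat.shiftRight_add, sh _ _ s0,
        sh _ _ s1]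
      exact ih (fun v => hG (v, 2)) r2 _ u

theorem dgt_ok {D : ℕ} {G : Vt D → ℤ} (hG : ∀ v, |G v| ≤ 2 ^ 142) {R : ℕ}
    (hR : (R : ℤ) = HB * (CC D).o5 + z3 D G) (v : Vt D) :
    ((dgt R (pb D v) : ℕ) : ℤ) = 2 ^ 143 + G v := by
  have h := slot_ok hG hR 0 v
  rw [mul_zero, add_zero] at h
  have h3 := abs_le.mp (hG v)
  show (((R >>> pb D v) &&& B1 : ℕ) : ℤ) = _
  rw [B1_eq, Nat.and_two_pow_sub_one_eq_mod, h, Int.toNat_of_nonneg (by linarith)]

/-! ### all control points -/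

theorem tall_cons (d : DC) (l : List DC) (f : ℕ → Bool) (s : ℕ) : tall (d :: l) f s =
    andB (tall l f s) (andB (tall l f (Nat.add s d.s)) (tall l f (Nat.add s d.s2))) := rfl

theorem tall_app (l : List DC) (x : DC) (f : ℕ → Bool) (s : ℕ) :
    tall (l ++ [x]) f s = tall l (tall [x] f) s := by
  induction l generalizing s with
  | nil => rfl
  | cons d l ih =>
    rw [List.cons_append, tall_cons, tall_cons, ih, ih, ih]

theorem tall_map (W : ℕ) (l : List DC) (f : ℕ → Bool) (s : ℕ) :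
    tall (l.map (scD W)) f s = tall l f s := by
  induction l generalizing s with
  | nil => rfl
  | cons d l ih =>
    rw [List.map_cons, tall_cons, tall_cons, ih, ih, ih]
    rfl

theorem tall_ok {D : ℕ} {f : ℕ → Bool} {s : ℕ} (h : tall (CC D).ds f s = true) (v : Vt D) :
    f (s + pb D v) = true := by
  induction D generalizing f s with
  | zero => exact h
  | succ D ih =>
    rw [CC_ds_succ, tall_app, tall_map] at h
    obtain ⟨u, i⟩ := v
    have h2 := ih h u
    rw [tall_cons] at h2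
    obtain ⟨h3, h4⟩ := andB_iff'.mp h2
    obtain ⟨h4, h5⟩ := andB_iff'.mp h4
    fin_cases i
    · show f (s + (pb D u + 0 * ww D)) = true
      rw [zero_mul, add_zero]
      exact h3
    · show f (s + (pb D u + 1 * ww D)) = true
      rw [one_mul, ← add_assoc]
      exact h4
    · show f (s + (pb D u + 2 * ww D)) = true
      rw [← add_assoc]
      exact h5

/-! ### the reduction of a sum -/

theorem ofs_val {n : ℕ} {z : Z} {x : ℤ} (hz : zv z = x) (h : |x| ≤ n) :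
    ((ofs n z : ℕ) : ℤ) = n + x := by
  subst hz
  cases z with
  | p m =>
    show ((n + m : ℕ) : ℤ) = n + (m : ℤ)
    push_cast; ring
  | m m =>
    have h2 : |(-(m : ℤ))| ≤ n := h
    rw [abs_neg, abs_of_nonneg (Int.natCast_nonneg m)] at h2
    have h3 : m ≤ n := by exact_mod_cast h2
    show ((n - m : ℕ) : ℤ) = n + -(m : ℤ)
    rw [Nat.cast_sub h3]
    ring

/-- THE REDUCED SUM -/
theorem rdS_ok {D : ℕ} {H : V5 D → ℤ} {b : ℤ} (hb : 0 ≤ b) (hH : ∀ v, |H v| ≤ b)
    (h4 : 4 ^ D * b ≤ 2 ^ 142) {K G : Z} (hz : zv K * (CC D).od + zv G = z5 D H) (v : Vt D) :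
    ((dgt (rdS (CC D) K G) (pb D v) : ℕ) : ℤ) = 2 ^ 143 + rdZ D H v ∧ |rdZ D H v| ≤ 2 ^ 142 := by
  have hHB : (HB : ℤ) = 2 ^ 143 := by rw [HB_eq]; norm_num
  have ho : (0 : ℤ) ≤ (CC D).o5 := Int.natCast_nonneg _
  have hr : ∀ v, |rdZ D H v| ≤ 2 ^ 142 := fun v => (rdZ_bd hb hH v).trans h4
  refine ⟨dgt_ok hr ?_ v, hr v⟩
  have h1 : zv (Z.add G (odm (CC D) K)) = z5 D H := by
    rw [zv_add, odm_ok, ← hz]
    ring
  have hb1 : b ≤ 2 ^ 142 := by
    have : (1 : ℤ) ≤ 4 ^ D := one_le_pow₀ (by norm_num)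
    nlinarith
  have h2 : |z5 D H| ≤ ((Nat.mul HB (CC D).o5 : ℕ) : ℤ) := by
    refine (z5_bd hH).trans ?_
    show b * (CC D).o5 ≤ ((HB * (CC D).o5 : ℕ) : ℤ)
    push_cast
    rw [hHB]
    nlinarith
  have h3 := ofs_val h1 h2
  refine (stgs_ok hb hH h4 (U := ofs (Nat.mul HB (CC D).o5) (Z.add G (odm (CC D) K))) ?_).1
  rw [h3]
  show ((HB * (CC D).o5 : ℕ) : ℤ) + _ = _
  push_cast
  ring

end Pool.Agent.Helper57.KNK
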