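import Pool.Agent.Helper57.KNK.P2
import Pool.Agent.Helper57.KNB.KT2
import Pool.Agent.Helper90.CX.KCT3

/-!
Packed machine of the classes with tails (MP_c75db0): sums of products of models, proofs.
-/

set_option autoImplicit false
set_option exponentiation.threshold 4000
noncomputable section
namespace Pool.Agent.Helper57.KNK

open Pool.Agent.Helper86.C75 (Z)
open Pool.Agent.Helper86.CX (andB Hm)
open Pool.Agent.Helper86.CT (Mo er DF)
open Pool.Agent.Helper86.CK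
open Pool.Agent.Helper90.C75 (Vt Wts avg mulT wtT norm_avg_le avg_add avg_smul)
open Pool.Agent.Helper90.KMO (zv cz zv_mul zv_add UU UU_pos norm_UU)
open Pool.Agent.Helper90.KMT (TOK VT PT DL NN rl nn_rl er_le cov_leL mulT_smul_left DL_re)
open Pool.Agent.Helper17.KPT (mulZ)
open Pool.Agent.Helper57.KNB (H6 SH D3 SOK HOK)

/-! ### the product of control values -/


theorem mulZ_mulT {D : ℕ} (F G : Vt D → ℤ) (v : Vt D) :
    ((mulZ (fun a b : ℤ => a * b) D (List.replicate D true) F G v : ℤ) : ℂ) =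
      4 ^ D * mulT D (fun u => (F u : ℂ)) (fun u => (G u : ℂ)) v := by
  induction D with
  | zero => simp [mulZ, mulT]
  | succ D ih =>
    obtain ⟨u, i⟩ := v
    by_cases hi : i = 1
    · subst hi
      have e : mulZ (fun a b : ℤ => a * b) (D + 1) (List.replicate (D + 1) true) F G (u, 1) =
          (4 : ℤ) • mulZ (fun a b : ℤ => a * b) D (List.replicate D true) (fun u => F (u, 1))
            (fun u => G (u, 1)) u -
          mulZ (fun a b : ℤ => a * b) D (List.replicate D true) (fun u => F (u, 2) - F (u, 0))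
            (fun u => G (u, 2) - G (u, 0)) u := rfl
      rw [e, zsmul_eq_mul, Int.cast_sub, Int.cast_mul, ih, ih]
      simp only [mulT, if_true]
      push_cast
      ring
    · have e : mulZ (fun a b : ℤ => a * b) (D + 1) (List.replicate (D + 1) true) F G (u, i) =
          (4 : ℤ) • mulZ (fun a b : ℤ => a * b) D (List.replicate D true) (fun u => F (u, i))
            (fun u => G (u, i)) u := if_neg hi
      rw [e, zsmul_eq_mul, Int.cast_mul, ih]
      simp only [mulT, hi, if_false]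
      push_cast
      ring

theorem rdZ_mulT {D : ℕ} (F G : Vt D → ℤ) (v : Vt D) : ((rdZ D (cv D F G) v : ℤ) : ℂ) =
    4 ^ D * mulT D (fun u => (F u : ℂ)) (fun u => (G u : ℂ)) v := by
  rw [rdZ_cv, mulZ_mulT]

theorem mulT_cl (D : ℕ) (c : ℂ) (G : Vt D → ℂ) (v : Vt D) :
    mulT D (fun _ => c) G v = c * G v := by
  induction D with
  | zero => rfl
  | succ D ih =>
    simp only [mulT]
    by_cases h : v.2 = 1
    · rw [if_pos h, sub_self, ih, Pool.Agent.Helper90.KMT.mulT_zero_left]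
      rw [zero_div, sub_zero, ← h]
      rfl
    · rw [if_neg h, ih]
      rfl

/-! ### bounds of a function -/

/-- sizes of a function -/
structure FB (D : ℕ) (F : Vt D → ℂ) (B : ℕ) (l : List DF) : Prop where
  bd : ∀ v, ‖F v‖ ≤ B
  len : l.length = D
  dl : DL D F (l.map rl)

variable {α : Type} {D : ℕ} {lf : α → Vt D → ℂ} {t : ℕ → ℝ}

theorem FB.of {M : Mo α} (h : VT D lf M) : FB D (lf M.v) M.B M.l := ⟨h.bd, h.len, h.dl⟩

theorem FB.re {F : Vt D → ℂ} {B : ℕ} {l : List DF} (h : FB D F B l) :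
    FB D (fun v => ((F v).re : ℂ)) B l := by
  refine ⟨fun v => ?_, h.len, DL_re h.dl⟩
  rw [Complex.norm_real]
  exact (Complex.abs_re_le_norm _).trans (h.bd v)

theorem avg_re' (w : Vt D → ℝ) (F : Vt D → ℂ) :
    avg w (fun v => ((F v).re : ℂ)) = ((avg w F).re : ℂ) := Pool.Agent.Helper57.KNB.tavg_re w F

theorem mod_re {f : ℝ} {F : Vt D → ℂ} {r : ℝ} (h : ‖(UU : ℂ) * (f : ℂ) - avg (wtT D t) F‖ ≤ r) :
    ‖(UU : ℂ) * (f : ℂ) - avg (wtT D t) (fun v => ((F v).re : ℂ))‖ ≤ r := by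
  rw [avg_re']
  have e : (UU : ℂ) * (f : ℂ) - ((avg (wtT D t) F).re : ℂ) =
      ((((UU : ℂ) * (f : ℂ) - avg (wtT D t) F).re : ℝ) : ℂ) := by
    rw [Complex.sub_re, Complex.re_ofReal_mul, Complex.ofReal_re]
    push_cast; rfl
  rw [e, Complex.norm_real]
  exact (Complex.abs_re_le_norm _).trans h

/-- the product before the reduction -/
theorem pr_mod (hP : PT D t) {f g : ℂ} {F G : Vt D → ℂ} {B C : ℕ} {l l' : List DF} {r s : ℕ}
    (hF : FB D F B l) (hG : FB D G C l') (mF : ‖(UU : ℂ) * f - avg (wtT D t) F‖ ≤ r)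
    (mG : ‖(UU : ℂ) * g - avg (wtT D t) G‖ ≤ s) {e : ℕ}
    (he : ‖avg (wtT D t) (mulT D F G) - avg (wtT D t) F * avg (wtT D t) G‖ ≤ e) :
    ‖(UU : ℂ) * UU * (f * g) - avg (wtT D t) (mulT D F G)‖ ≤ r * C + s * B + r * s + e := by
  have bF := norm_avg_le hP.w hF.bd
  have bG := norm_avg_le hP.w hG.bd
  set X := avg (wtT D t) F
  set Y := avg (wtT D t) G
  set P := avg (wtT D t) (mulT D F G)
  have e2 : (UU : ℂ) * UU * (f * g) - P = ((UU * f - X) * Y + (UU * g - Y) * X +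
      (UU * f - X) * (UU * g - Y)) - (P - X * Y) := by ring
  rw [e2]
  refine (norm_sub_le _ _).trans (add_le_add ?_ he)
  refine (norm_add_le _ _).trans (add_le_add ((norm_add_le _ _).trans (add_le_add ?_ ?_)) ?_)
  · rw [norm_mul]; exact mul_le_mul mF bG (norm_nonneg _) (Nat.cast_nonneg _)
  · rw [norm_mul]; exact mul_le_mul mG bF (norm_nonneg _) (Nat.cast_nonneg _)
  · rw [norm_mul]; exact mul_le_mul mF mG (norm_nonneg _) (Nat.cast_nonneg _)

theorem cov_er (hP : PT D t) {F G : Vt D → ℂ} {B C : ℕ} {l l' : List DF} (hF : FB D F B l)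
    (hG : FB D G C l') :
    ‖avg (wtT D t) (mulT D F G) - avg (wtT D t) F * avg (wtT D t) G‖ ≤ (er l l' : ℕ) :=
  (cov_leL hP.h0 hP.h1 hF.dl hG.dl (by rw [List.length_map, hF.len])
    (by rw [List.length_map, hG.len]) (nn_rl _) (nn_rl _)).trans (er_le _ _)

theorem cov_c (hP : PT D t) {c : ℂ} {F G : Vt D → ℂ} (hF : ∀ v, F v = c) :
    ‖avg (wtT D t) (mulT D F G) - avg (wtT D t) F * avg (wtT D t) G‖ ≤ ((nat_lit 0 : ℕ) : ℝ) := by
  have e : F = fun _ => c := funext hF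
  subst e
  rw [funext (mulT_cl D c G), avg_smul, Pool.Agent.Helper90.C75.avg_const hP.w, sub_self, norm_zero]
  exact Nat.cast_nonneg _

/-! ### packed functions -/

/-- laws of the packed numbers -/
structure VwOK (D : ℕ) (lf : α → Vt D → ℂ) (V : Vw α) : Prop where
  ok : ∀ {x : α}, V.ok x = true → ∃ I : Vt D → ℤ × ℤ, zv (V.re x) = pkZ D (fun v => (I v).1) ∧
    zv (V.im x) = pkZ D (fun v => (I v).2) ∧ (∀ v, |(I v).1| ≤ 2 ^ 60) ∧
    ∀ v, lf x v = ((I v).1 : ℂ) + ((I v).2 : ℂ) * Complex.I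
  k : ∀ {x : α}, V.k x = true → ∃ c : ℂ, ∀ v, lf x v = c

/-- one real entry of the sum: value, two accumulators, radius, size -/
def ER (D : ℕ) (t : ℕ → ℝ) (f : ℝ) (K G : Z) (R Q : ℕ) : Prop :=
  ∃ E : V5 D → ℤ, zv K * (CC D).od + zv G = z5 D E ∧ (∀ u, |E u| ≤ 6 ^ D * Q) ∧
    ‖(UU : ℂ) * UU * 4 ^ D * (f : ℂ) - avg (wtT D t) (fun v => ((rdZ D E v : ℤ) : ℂ))‖ ≤ 4 ^ D * R
/-- one complex entry of the sum -/
def EC (D : ℕ) (t : ℕ → ℝ) (f : ℂ) (K G K' G' : Z) (R Q : ℕ) : Prop :=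
  ∃ E E' : V5 D → ℤ, zv K * (CC D).od + zv G = z5 D E ∧ zv K' * (CC D).od + zv G' = z5 D E' ∧
    (∀ u, |E u| ≤ 6 ^ D * Q) ∧ (∀ u, |E' u| ≤ 6 ^ D * Q) ∧
    ‖(UU : ℂ) * UU * 4 ^ D * f - avg (wtT D t)
      (fun v => ((rdZ D E v : ℤ) : ℂ) + ((rdZ D E' v : ℤ) : ℂ) * Complex.I)‖ ≤ 4 ^ D * R

theorem rdZ_z (v : Vt D) : rdZ D (fun _ => 0) v = 0 := by
  have h := rdZ_mul D 0 (fun _ => 0) v
  simpa using h

theorem z5_z : z5 D (fun _ => 0) = 0 := by
  have h := z5_mul D 0 (fun _ => 0)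
  simpa using h

theorem ER_zero : ER D t 0 zz zz (nat_lit 0) (nat_lit 0) := by
  refine ⟨fun _ => 0, ?_, fun u => by simp, ?_⟩
  · rw [z5_z]; show ((0 : ℕ) : ℤ) * _ + ((0 : ℕ) : ℤ) = 0; simp
  · simp [rdZ_z, avg]

theorem EC_zero : EC D t 0 zz zz zz zz (nat_lit 0) (nat_lit 0) := by
  refine ⟨fun _ => 0, fun _ => 0, ?_, ?_, fun u => by simp, fun u => by simp, ?_⟩
  · rw [z5_z]; show ((0 : ℕ) : ℤ) * _ + ((0 : ℕ) : ℤ) = 0; simp
  · rw [z5_z]; show ((0 : ℕ) : ℤ) * _ + ((0 : ℕ) : ℤ) = 0; simp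
  · simp [rdZ_z, avg]

/-- bound of the integers -/
theorem ib {x : α} {M : Mo α} {I : Vt D → ℤ × ℤ} (h : VT D lf M) (hx : M.v = x)
    (hI : ∀ v, lf x v = ((I v).1 : ℂ) + ((I v).2 : ℂ) * Complex.I) (v : Vt D) :
    |(I v).1| ≤ M.B ∧ |(I v).2| ≤ M.B := by
  have h1 := h.bd v
  rw [hx, hI] at h1
  have h2 := (Complex.abs_re_le_norm _).trans h1
  have h3 := (Complex.abs_im_le_norm _).trans h1
  simp at h2 h3
  exact ⟨by exact_mod_cast h2, by exact_mod_cast h3⟩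

end Pool.Agent.Helper57.KNK
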