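import Pool.Agent.Helper57.KNK.P3

/-!
Packed machine of the classes with tails (MP_c75db0): one product more, proofs.
-/

set_option autoImplicit false
set_option exponentiation.threshold 4000
noncomputable section
namespace Pool.Agent.Helper57.KNK

open Pool.Agent.Helper86.C75 (Z)
open Pool.Agent.Helper86.CX (andB Hm)
open Pool.Agent.Helper86.CT (Mo er DF)
open Pool.Agent.Helper86.CK
open Pool.Agent.Helper90.C75 (Vt Wts avg mulT wtT norm_avg_le avg_add avg_smul)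
open Pool.Agent.Helper90.KMO (zv cz zv_mul zv_add UU UU_pos norm_UU)
open Pool.Agent.Helper90.KMT (TOK VT PT mulT_add_right mulT_smul_right)
open Pool.Agent.Helper57.KNB (H6 SH D3 SOK HOK)

variable {α : Type} {D : ℕ} {lf : α → Vt D → ℂ} {t : ℕ → ℝ} {V : Vw α}

theorem zv_am (f x z : Z) : zv (am f x z) = zv f * zv x + zv z := by
  unfold am
  rw [zv_add, zv_mul]

theorem rt_eq (e : ℕ) (s m : Mo α) (R : ℕ) :
    ((rt e s m R : ℕ) : ℝ) = s.r * m.B + m.r * s.B + s.r * m.r + e + R := by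
  show ((s.r * m.B + m.r * s.B + s.r * m.r + e + R : ℕ) : ℝ) = _
  push_cast
  ring

/-- a product, real entry -/
theorem ER.stp (hP : PT D t) {a b f : ℝ} {s m : Mo α} {K G K' G' : Z} {R Q Q' e : ℕ}
    (hs : TOK D lf t (a : ℂ) s) (hm : TOK D lf t (b : ℂ) m) {I J : Vt D → ℤ × ℤ}
    (hI : ∀ v, lf s.v v = ((I v).1 : ℂ) + ((I v).2 : ℂ) * Complex.I)
    (hJ : ∀ v, lf m.v v = ((J v).1 : ℂ) + ((J v).2 : ℂ) * Complex.I)
    (he : ‖avg (wtT D t) (mulT D (fun v => ((lf s.v v).re : ℂ)) (fun v => ((lf m.v v).re : ℂ))) -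
      avg (wtT D t) (fun v => ((lf s.v v).re : ℂ)) * avg (wtT D t) (fun v => ((lf m.v v).re : ℂ))‖ ≤ e)
    (hz : zv K' * (CC D).od + zv G' = zv K * (CC D).od + zv G +
      pkZ D (fun v => (I v).1) * pkZ D (fun v => (J v).1))
    (h : ER D t f K G R Q) (hQ : s.B * m.B + Q ≤ Q') : ER D t (a * b + f) K' G' (rt e s m R) Q' := by
  obtain ⟨E, h1, h2, h3⟩ := h
  have bI : ∀ v, |(I v).1| ≤ s.B := fun v => (ib hs.val rfl hI v).1
  have bJ : ∀ v, |(J v).1| ≤ m.B := fun v => (ib hm.val rfl hJ v).1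
  refine ⟨fun u => cv D (fun v => (I v).1) (fun v => (J v).1) u + E u, ?_, fun u => ?_, ?_⟩
  · rw [hz, h1, z5_add, pkZ_prod]
    ring
  · have c1 := cv_bd (D := D) (Int.natCast_nonneg s.B) (Int.natCast_nonneg m.B) bI bJ u
    have c2 := h2 u
    have hQ' : ((s.B : ℤ) * m.B + Q) ≤ Q' := by exact_mod_cast hQ
    have h6 : (0 : ℤ) ≤ 6 ^ D := by positivity
    refine (abs_add_le _ _).trans ((add_le_add c1 c2).trans ?_)
    nlinarith [mul_le_mul_of_nonneg_left hQ' h6]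
  · have eI : (fun v => ((lf s.v v).re : ℂ)) = fun v => ((I v).1 : ℂ) := by
      funext v; rw [hI]; simp
    have eJ : (fun v => ((lf m.v v).re : ℂ)) = fun v => ((J v).1 : ℂ) := by
      funext v; rw [hJ]; simp
    have k := pr_mod hP (FB.of hs.val).re (FB.of hm.val).re (mod_re hs.mod) (mod_re hm.mod) he
    rw [eI, eJ] at k
    have e1 : (fun v => ((rdZ D (fun u => cv D (fun v => (I v).1) (fun v => (J v).1) u + E u) v : ℤ) : ℂ)) =
        fun v => 4 ^ D * mulT D (fun v => ((I v).1 : ℂ)) (fun v => ((J v).1 : ℂ)) v +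
          ((rdZ D E v : ℤ) : ℂ) := by
      funext v
      rw [rdZ_add]
      push_cast
      rw [rdZ_mulT]
    rw [e1, avg_add, avg_smul, rt_eq]
    have e2 : (UU : ℂ) * UU * 4 ^ D * ((a * b + f : ℝ) : ℂ) - (4 ^ D * avg (wtT D t)
        (mulT D (fun v => ((I v).1 : ℂ)) (fun v => ((J v).1 : ℂ))) +
        avg (wtT D t) (fun v => ((rdZ D E v : ℤ) : ℂ))) =
        4 ^ D * ((UU : ℂ) * UU * ((a : ℂ) * (b : ℂ)) - avg (wtT D t)
        (mulT D (fun v => ((I v).1 : ℂ)) (fun v => ((J v).1 : ℂ)))) +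
        ((UU : ℂ) * UU * 4 ^ D * (f : ℂ) - avg (wtT D t) (fun v => ((rdZ D E v : ℤ) : ℂ))) := by
      push_cast; ring
    have n4 : ‖(4 : ℂ) ^ D‖ = 4 ^ D := by rw [norm_pow]; norm_num
    have p4 : (0 : ℝ) < 4 ^ D := by positivity
    rw [e2]
    refine (norm_add_le _ _).trans ?_
    rw [norm_mul, n4]
    nlinarith [mul_le_mul_of_nonneg_left k p4.le]

/-- a product, complex entry -/
theorem EC.stp (hP : PT D t) {a : ℝ} {b f : ℂ} {s m : Mo α} {K G K' G' L H L' H' : Z}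
    {R Q Q' e : ℕ} (hs : TOK D lf t (a : ℂ) s) (hm : TOK D lf t b m) {I J : Vt D → ℤ × ℤ}
    (hI : ∀ v, lf s.v v = ((I v).1 : ℂ) + ((I v).2 : ℂ) * Complex.I)
    (hJ : ∀ v, lf m.v v = ((J v).1 : ℂ) + ((J v).2 : ℂ) * Complex.I)
    (he : ‖avg (wtT D t) (mulT D (fun v => ((lf s.v v).re : ℂ)) (lf m.v)) -
      avg (wtT D t) (fun v => ((lf s.v v).re : ℂ)) * avg (wtT D t) (lf m.v)‖ ≤ e)
    (hz : zv K' * (CC D).od + zv G' = zv K * (CC D).od + zv G +
      pkZ D (fun v => (I v).1) * pkZ D (fun v => (J v).1))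
    (hz' : zv L' * (CC D).od + zv H' = zv L * (CC D).od + zv H +
      pkZ D (fun v => (I v).1) * pkZ D (fun v => (J v).2))
    (h : EC D t f K G L H R Q) (hQ : s.B * m.B + Q ≤ Q') :
    EC D t ((a : ℂ) * b + f) K' G' L' H' (rt e s m R) Q' := by
  obtain ⟨E, F, h1, g1, h2, g2, h3⟩ := h
  have bI : ∀ v, |(I v).1| ≤ s.B := fun v => (ib hs.val rfl hI v).1
  have bJ : ∀ v, |(J v).1| ≤ m.B := fun v => (ib hm.val rfl hJ v).1
  have bK : ∀ v, |(J v).2| ≤ m.B := fun v => (ib hm.val rfl hJ v).2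
  have hQ' : ((s.B : ℤ) * m.B + Q) ≤ Q' := by exact_mod_cast hQ
  have h6 : (0 : ℤ) ≤ 6 ^ D := by positivity
  refine ⟨fun u => cv D (fun v => (I v).1) (fun v => (J v).1) u + E u,
    fun u => cv D (fun v => (I v).1) (fun v => (J v).2) u + F u, ?_, ?_, fun u => ?_, fun u => ?_, ?_⟩
  · rw [hz, h1, z5_add, pkZ_prod]
    ring
  · rw [hz', g1, z5_add, pkZ_prod]
    ring
  · have c1 := cv_bd (D := D) (Int.natCast_nonneg s.B) (Int.natCast_nonneg m.B) bI bJ u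
    refine (abs_add_le _ _).trans ((add_le_add c1 (h2 u)).trans ?_)
    nlinarith [mul_le_mul_of_nonneg_left hQ' h6]
  · have c1 := cv_bd (D := D) (Int.natCast_nonneg s.B) (Int.natCast_nonneg m.B) bI bK u
    refine (abs_add_le _ _).trans ((add_le_add c1 (g2 u)).trans ?_)
    nlinarith [mul_le_mul_of_nonneg_left hQ' h6]
  · have eI : (fun v => ((lf s.v v).re : ℂ)) = fun v => ((I v).1 : ℂ) := by
      funext v; rw [hI]; simp
    have eJ : lf m.v = fun v => ((J v).1 : ℂ) + Complex.I * ((J v).2 : ℂ) := by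
      funext v; rw [hJ, mul_comm Complex.I]
    have k := pr_mod hP (FB.of hs.val).re (FB.of hm.val) (mod_re hs.mod) hm.mod he
    have e0 : mulT D (fun v => ((I v).1 : ℂ)) (fun v => ((J v).1 : ℂ) + Complex.I * ((J v).2 : ℂ)) =
        fun v => mulT D (fun v => ((I v).1 : ℂ)) (fun v => ((J v).1 : ℂ)) v +
          Complex.I * mulT D (fun v => ((I v).1 : ℂ)) (fun v => ((J v).2 : ℂ)) v := by
      rw [mulT_add_right, mulT_smul_right]
    rw [eI, eJ, e0] at k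
    have e1 : (fun v => ((rdZ D (fun u => cv D (fun v => (I v).1) (fun v => (J v).1) u + E u) v : ℤ) : ℂ) +
        ((rdZ D (fun u => cv D (fun v => (I v).1) (fun v => (J v).2) u + F u) v : ℤ) : ℂ) * Complex.I) =
        fun v => 4 ^ D * (mulT D (fun v => ((I v).1 : ℂ)) (fun v => ((J v).1 : ℂ)) v +
          Complex.I * mulT D (fun v => ((I v).1 : ℂ)) (fun v => ((J v).2 : ℂ)) v) +
          (((rdZ D E v : ℤ) : ℂ) + ((rdZ D F v : ℤ) : ℂ) * Complex.I) := by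
      funext v
      rw [rdZ_add, rdZ_add]
      push_cast
      rw [rdZ_mulT, rdZ_mulT]
      ring
    rw [e1, avg_add, avg_smul, rt_eq]
    generalize avg (wtT D t) (fun v => mulT D (fun v => ((I v).1 : ℂ)) (fun v => ((J v).1 : ℂ)) v +
          Complex.I * mulT D (fun v => ((I v).1 : ℂ)) (fun v => ((J v).2 : ℂ)) v) = P at k ⊢
    generalize avg (wtT D t) (fun v => ((rdZ D E v : ℤ) : ℂ) + ((rdZ D F v : ℤ) : ℂ) * Complex.I) = S
      at h3 ⊢
    have e2 : (UU : ℂ) * UU * 4 ^ D * ((a : ℂ) * b + f) - (4 ^ D * P + S) =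
        4 ^ D * ((UU : ℂ) * UU * ((a : ℂ) * b) - P) + ((UU : ℂ) * UU * 4 ^ D * f - S) := by
      ring
    have n4 : ‖(4 : ℂ) ^ D‖ = 4 ^ D := by rw [norm_pow]; norm_num
    have p4 : (0 : ℝ) < 4 ^ D := by positivity
    rw [e2]
    refine (norm_add_le _ _).trans ?_
    rw [norm_mul, n4]
    nlinarith [mul_le_mul_of_nonneg_left k p4.le]

/-! ### the two cases -/

theorem hzG {K G x y : Z} {F J : Vt D → ℤ} (h1 : zv x = pkZ D F) (h2 : zv y = pkZ D J) :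
    zv K * (CC D).od + zv (am x y G) = zv K * (CC D).od + zv G + pkZ D F * pkZ D J := by
  rw [zv_am, h1, h2]; ring

theorem hzK {K G x y : Z} {F J : Vt D → ℤ} {c : ℤ} (h1 : zv x = pkZ D F) (h2 : zv y = pkZ D J)
    (hc : ∀ v, F v = c) (hb : |c| ≤ 2 ^ 60) :
    zv (am (low x) y K) * (CC D).od + zv G = zv K * (CC D).od + zv G + pkZ D F * pkZ D J := by
  have e : F = fun _ => c := funext hc
  have h3 : zv x = c * (CC D).od := by rw [h1, e, Pool.Agent.Helper57.KNK.pkZ_const]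
  have h4 : zv (low x) = c := low_ok h3 (hb.trans_lt (by norm_num))
  rw [zv_am, h4, h2, e, Pool.Agent.Helper57.KNK.pkZ_const]
  ring

/-- the real part of a constant -/
theorem k_c (hV : VwOK D lf V) {x : α} (hk : V.k x = true) {I : Vt D → ℤ × ℤ}
    (hI : ∀ v, lf x v = ((I v).1 : ℂ) + ((I v).2 : ℂ) * Complex.I) :
    (∃ c : ℤ, ∀ v, (I v).1 = c) ∧ ∃ c : ℂ, ∀ v, ((lf x v).re : ℂ) = c := by
  obtain ⟨c, hc⟩ := hV.k hk
  refine ⟨⟨(I (v0 D)).1, fun v => ?_⟩, ⟨((c.re : ℝ) : ℂ), fun v => by rw [hc]⟩⟩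
  have h1 : lf x v = lf x (v0 D) := by rw [hc, hc]
  rw [hI, hI] at h1
  have h2 := congrArg Complex.re h1
  simp at h2
  exact_mod_cast h2

theorem ER.G (hV : VwOK D lf V) (hP : PT D t) {a b f : ℝ} {s m : Mo α} {K G : Z} {R Q Q' : ℕ}
    (hs : TOK D lf t (a : ℂ) s) (hm : TOK D lf t (b : ℂ) m) (os : V.ok s.v = true)
    (om : V.ok m.v = true) (h : ER D t f K G R Q) (hQ : s.B * m.B + Q ≤ Q') :
    ER D t (a * b + f) K (am (V.re s.v) (V.re m.v) G) (rt (er s.l m.l) s m R) Q' := by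
  obtain ⟨I, i1, _, _, hI⟩ := hV.ok os
  obtain ⟨J, j1, _, _, hJ⟩ := hV.ok om
  exact ER.stp hP hs hm hI hJ (cov_er hP (FB.of hs.val).re (FB.of hm.val).re) (hzG i1 j1) h hQ

theorem ER.K (hV : VwOK D lf V) (hP : PT D t) {a b f : ℝ} {s m : Mo α} {K G : Z} {R Q Q' : ℕ}
    (hs : TOK D lf t (a : ℂ) s) (hm : TOK D lf t (b : ℂ) m) (os : V.ok s.v = true)
    (om : V.ok m.v = true) (hk : V.k s.v = true) (h : ER D t f K G R Q)
    (hQ : s.B * m.B + Q ≤ Q') :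
    ER D t (a * b + f) (am (low (V.re s.v)) (V.re m.v) K) G (rt (nat_lit 0) s m R) Q' := by
  obtain ⟨I, i1, _, i3, hI⟩ := hV.ok os
  obtain ⟨J, j1, _, _, hJ⟩ := hV.ok om
  obtain ⟨⟨c, hc⟩, ⟨c', hc'⟩⟩ := k_c hV hk hI
  have hb : |c| ≤ 2 ^ 60 := by rw [← hc (v0 D)]; exact i3 _
  exact ER.stp hP hs hm hI hJ (cov_c hP hc') (hzK i1 j1 hc hb) h hQ

theorem EC.G (hV : VwOK D lf V) (hP : PT D t) {a : ℝ} {b f : ℂ} {s m : Mo α} {K G L H : Z}
    {R Q Q' : ℕ} (hs : TOK D lf t (a : ℂ) s) (hm : TOK D lf t b m) (os : V.ok s.v = true)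
    (om : V.ok m.v = true) (h : EC D t f K G L H R Q) (hQ : s.B * m.B + Q ≤ Q') :
    EC D t ((a : ℂ) * b + f) K (am (V.re s.v) (V.re m.v) G) L (am (V.re s.v) (V.im m.v) H)
      (rt (er s.l m.l) s m R) Q' := by
  obtain ⟨I, i1, _, _, hI⟩ := hV.ok os
  obtain ⟨J, j1, j2, _, hJ⟩ := hV.ok om
  exact EC.stp hP hs hm hI hJ (cov_er hP (FB.of hs.val).re (FB.of hm.val)) (hzG i1 j1)
    (hzG i1 j2) h hQ

theorem EC.K (hV : VwOK D lf V) (hP : PT D t) {a : ℝ} {b f : ℂ} {s m : Mo α} {K G L H : Z}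
    {R Q Q' : ℕ} (hs : TOK D lf t (a : ℂ) s) (hm : TOK D lf t b m) (os : V.ok s.v = true)
    (om : V.ok m.v = true) (hk : V.k s.v = true) (h : EC D t f K G L H R Q)
    (hQ : s.B * m.B + Q ≤ Q') :
    EC D t ((a : ℂ) * b + f) (am (low (V.re s.v)) (V.re m.v) K) G
      (am (low (V.re s.v)) (V.im m.v) L) H (rt (nat_lit 0) s m R) Q' := by
  obtain ⟨I, i1, _, i3, hI⟩ := hV.ok os
  obtain ⟨J, j1, j2, _, hJ⟩ := hV.ok om
  obtain ⟨⟨c, hc⟩, ⟨c', hc'⟩⟩ := k_c hV hk hI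
  have hb : |c| ≤ 2 ^ 60 := by rw [← hc (v0 D)]; exact i3 _
  exact EC.stp hP hs hm hI hJ (cov_c hP hc') (hzK i1 j1 hc hb) (hzK i1 j2 hc hb) h hQ

end Pool.Agent.Helper57.KNK
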