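import Pool.Agent.Helper57.KNK.P4
import Pool.Agent.Helper86.CK.K5

/-!
Packed machine of the classes with tails (MP_c75db0): THE TEST OF A SUM OF FORMS IS SOUND.
-/

set_option autoImplicit false
set_option exponentiation.threshold 4000
set_option maxRecDepth 4000
noncomputable section
namespace Pool.Agent.Helper57.KNK

open Pool.Agent.Helper86.C75 (Z)
open Pool.Agent.Helper86.CX (andB Hm mkH ev E3 Cx psd1 N2 M2)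
open Pool.Agent.Helper86.CT (Mo er DF)
open Pool.Agent.Helper86.CK
open Pool.Agent.Helper90.C75 (Vt Wts avg mulT wtT norm_avg_le avg_add avg_smul)
open Pool.Agent.Helper90.KMO (zv cz zv_mul zv_add UU UU_pos norm_UU)
open Pool.Agent.Helper17.PAK (rep_N2)
open Pool.Agent.Helper90.KMT (TOK VT PT)
open Pool.Agent.Helper57.KNB (H6 SH D3 SOK HOK evs_avg evs_sum tavg_re')
open Pool.Agent.Helper39.KNF (wr wr_ge rf two_re_w one_re tst_gen sl cf Cb)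
open Pool.Agent.Helper17
open Complex ComplexConjugate

variable {α : Type} {D : ℕ} {lf : α → Vt D → ℂ} {t : ℕ → ℝ} {V : Vw α}

/-! ### all entries -/

/-- the sums of a list -/
structure SO (D : ℕ) (t : ℕ → ℝ) (p : List (ℝ × Hm ℝ)) (z : AC) : Prop where
  a : ER D t (p.map fun x => x.1 * x.2.a).sum z.K.a z.G.a z.R.a z.Q
  b : ER D t (p.map fun x => x.1 * x.2.b).sum z.K.b z.G.b z.R.b z.Q
  c : ER D t (p.map fun x => x.1 * x.2.c).sum z.K.c z.G.c z.R.c z.Q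
  x : EC D t (p.map fun x => (x.1 : ℂ) * x.2.x).sum z.K.d z.G.d z.K.e z.G.e z.R.x z.Q
  y : EC D t (p.map fun x => (x.1 : ℂ) * x.2.y).sum z.K.f z.G.f z.K.g z.G.g z.R.y z.Q
  w : EC D t (p.map fun x => (x.1 : ℂ) * x.2.w).sum z.K.h z.G.h z.K.i z.G.i z.R.w z.Q

theorem okH_iff {s : Mo α} {h : H6 (Mo α)} {b : Bool} (k : okH V s h b = true) :
    V.ok s.v = true ∧ V.ok h.a.v = true ∧ V.ok h.b.v = true ∧ V.ok h.c.v = true ∧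
    V.ok h.x.v = true ∧ V.ok h.y.v = true ∧ V.ok h.w.v = true ∧ b = true := by
  unfold okH at k
  obtain ⟨k1, k⟩ := andB_iff'.mp k
  obtain ⟨k2, k⟩ := andB_iff'.mp k
  obtain ⟨k3, k⟩ := andB_iff'.mp k
  obtain ⟨k4, k⟩ := andB_iff'.mp k
  obtain ⟨k5, k⟩ := andB_iff'.mp k
  obtain ⟨k6, k⟩ := andB_iff'.mp k
  obtain ⟨k7, k⟩ := andB_iff'.mp k
  exact ⟨k1, k2, k3, k4, k5, k6, k7, k⟩

theorem qS_le {s : Mo α} {h : H6 (Mo α)} {Q : ℕ} : s.B * h.a.B + Q ≤ qS s h Q ∧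
    s.B * h.b.B + Q ≤ qS s h Q ∧ s.B * h.c.B + Q ≤ qS s h Q ∧ s.B * h.x.B + Q ≤ qS s h Q ∧
    s.B * h.y.B + Q ≤ qS s h Q ∧ s.B * h.w.B + Q ≤ qS s h Q := by
  have e : qS s h Q = s.B * (h.a.B + h.b.B + h.c.B + h.x.B + h.y.B + h.w.B) + Q := rfl
  rw [e]
  refine ⟨?_, ?_, ?_, ?_, ?_, ?_⟩ <;>
    exact Nat.add_le_add_right (Nat.mul_le_mul_left _ (by omega)) _

theorem smA_cons (x : SH (Mo α) (H6 (Mo α))) (l : List (SH (Mo α) (H6 (Mo α)))) :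
    smA V (x :: l) = st1 V x (smA V l) := rfl

theorem smA_ok (hV : VwOK D lf V) (hP : PT D t) {p : List (ℝ × Hm ℝ)}
    {l : List (SH (Mo α) (H6 (Mo α)))}
    (h : List.Forall₂ (SOK (TOK D lf t) (HOK (TOK D lf t))) p l) (hk : (smA V l).ok = true) :
    SO D t p (smA V l) := by
  induction h with
  | nil => exact ⟨ER_zero, ER_zero, ER_zero, EC_zero, EC_zero, EC_zero⟩
  | @cons a x p l hx _ ih =>
    rw [smA_cons] at hk ⊢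
    unfold st1 at hk ⊢
    obtain ⟨q1, q2, q3, q4, q5, q6⟩ := qS_le (s := x.s) (h := x.h) (Q := (smA V l).Q)
    cases hc : V.k x.s.v with
    | true =>
      rw [hc] at hk
      obtain ⟨k1, k2, k3, k4, k5, k6, k7, k8⟩ := okH_iff (V := V) hk
      have i := ih k8
      simp only [stK]
      refine ⟨?_, ?_, ?_, ?_, ?_, ?_⟩ <;> simp only [List.map_cons, List.sum_cons]
      · exact ER.K hV hP hx.s hx.h.a k1 k2 hc i.a q1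
      · exact ER.K hV hP hx.s hx.h.b k1 k3 hc i.b q2
      · exact ER.K hV hP hx.s hx.h.c k1 k4 hc i.c q3
      · exact EC.K hV hP hx.s hx.h.x k1 k5 hc i.x q4
      · exact EC.K hV hP hx.s hx.h.y k1 k6 hc i.y q5
      · exact EC.K hV hP hx.s hx.h.w k1 k7 hc i.w q6
    | false =>
      rw [hc] at hk
      obtain ⟨k1, k2, k3, k4, k5, k6, k7, k8⟩ := okH_iff (V := V) hk
      have i := ih k8
      simp only [stG]
      refine ⟨?_, ?_, ?_, ?_, ?_, ?_⟩ <;> simp only [List.map_cons, List.sum_cons]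
      · exact ER.G hV hP hx.s hx.h.a k1 k2 i.a q1
      · exact ER.G hV hP hx.s hx.h.b k1 k3 i.b q2
      · exact ER.G hV hP hx.s hx.h.c k1 k4 i.c q3
      · exact EC.G hV hP hx.s hx.h.x k1 k5 i.x q4
      · exact EC.G hV hP hx.s hx.h.y k1 k6 i.y q5
      · exact EC.G hV hP hx.s hx.h.w k1 k7 i.w q6

/-! ### from the control points to the point -/

theorem gewC {κ a b c r1 r2 r3 r4 r5 r6 : ℝ} {x y w A B C X Y W : ℂ} (m1 : ‖(κ : ℂ) * a - A‖ ≤ r1)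
    (m2 : ‖(κ : ℂ) * b - B‖ ≤ r2) (m3 : ‖(κ : ℂ) * c - C‖ ≤ r3) (m4 : ‖(κ : ℂ) * x - X‖ ≤ r4)
    (m5 : ‖(κ : ℂ) * y - Y‖ ≤ r5) (m6 : ‖(κ : ℂ) * w - W‖ ≤ r6) {d : D3}
    (d0 : 0 < d.x) (d1 : 0 < d.y) (d2 : 0 < d.z) (v : Fin 3 → ℂ) :
    ev (mkH A.re B.re C.re X Y W) v - ((r1 + r4 * (d.x / d.y) + r5 * (d.x / d.z)) * normSq (v 0) +
      (r2 + r4 * (d.y / d.x) + r6 * (d.y / d.z)) * normSq (v 1) +
      (r3 + r5 * (d.z / d.x) + r6 * (d.z / d.y)) * normSq (v 2)) ≤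
      κ * ev (mkH a b c x y w) v := by
  simp only [Pool.Agent.Helper39.KNF.ev_mkH]
  have m1 := one_re (p := v 0) m1
  have m2 := one_re (p := v 1) m2
  have m3 := one_re (p := v 2) m3
  have m4 := two_re_w (p := v 0) (q := v 1) d0 d1 m4
  have m5 := two_re_w (p := v 0) (q := v 2) d0 d2 m5
  have m6 := two_re_w (p := v 1) (q := v 2) d1 d2 m6
  have e1 : ∀ (z : ℝ) (A : ℂ) (s : ℝ), ((κ : ℂ) * z - A).re * s = κ * (z * s) - A.re * s := by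
    intro z A s
    rw [Complex.sub_re, Complex.re_ofReal_mul, Complex.ofReal_re]
    ring
  have e2 : ∀ (z A p q : ℂ), 2 * (conj p * ((κ : ℂ) * z - A) * q).re =
      κ * (2 * (conj p * z * q).re) - 2 * (conj p * A * q).re := by
    intro z A p q
    have e : conj p * ((κ : ℂ) * z - A) * q = (κ : ℂ) * (conj p * z * q) - conj p * A * q := by
      ring
    rw [e, Complex.sub_re, Complex.re_ofReal_mul]
    ring
  rw [e1] at m1 m2 m3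
  rw [e2] at m4 m5 m6
  linarith

/-! ### a control point -/

theorem rep_dg {U ra : ℕ} {x : ℤ} (h : (U : ℤ) = 2 ^ 143 + x) :
    PAK.Rep M2 (Nat.add U (Nat.add CH (Nat.mul N2 ra))) (x - ra) := by
  have hc : PAK.Rep M2 CH (-2 ^ 143) := by
    unfold PAK.Rep Int.ModEq
    decide +kernel
  have h1 := (PAK.Rep.nat M2 U).add (hc.add (rep_N2.mul (PAK.Rep.nat M2 ra)))
  have e : (U : ℤ) + (-2 ^ 143 + -1 * ra) = x - ra := by rw [h]; ring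
  rw [e] at h1
  exact h1

theorem rep_dg0 {U : ℕ} {x : ℤ} (h : (U : ℤ) = 2 ^ 143 + x) :
    PAK.Rep M2 (Nat.add U CH) x := by
  have hc : PAK.Rep M2 CH (-2 ^ 143) := by
    unfold PAK.Rep Int.ModEq
    decide +kernel
  have h1 := (PAK.Rep.nat M2 U).add hc
  have e : (U : ℤ) + -2 ^ 143 = x := by rw [h]; ring
  rw [e] at h1
  exact h1

theorem lfT_ok {a b c d e f g h i ra rb rc s : ℕ} {xa xb xc xd xe xf xg xh xi : ℤ}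
    (ka : (dgt a s : ℤ) = 2 ^ 143 + xa ∧ |xa| ≤ 2 ^ 142)
    (kb : (dgt b s : ℤ) = 2 ^ 143 + xb ∧ |xb| ≤ 2 ^ 142)
    (kc : (dgt c s : ℤ) = 2 ^ 143 + xc ∧ |xc| ≤ 2 ^ 142)
    (kd : (dgt d s : ℤ) = 2 ^ 143 + xd ∧ |xd| ≤ 2 ^ 142)
    (ke : (dgt e s : ℤ) = 2 ^ 143 + xe ∧ |xe| ≤ 2 ^ 142)
    (kf : (dgt f s : ℤ) = 2 ^ 143 + xf ∧ |xf| ≤ 2 ^ 142)
    (kg : (dgt g s : ℤ) = 2 ^ 143 + xg ∧ |xg| ≤ 2 ^ 142)
    (kh : (dgt h s : ℤ) = 2 ^ 143 + xh ∧ |xh| ≤ 2 ^ 142)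
    (ki : (dgt i s : ℤ) = 2 ^ 143 + xi ∧ |xi| ≤ 2 ^ 142)
    (r1 : (ra : ℤ) ≤ 2 ^ 200) (r2 : (rb : ℤ) ≤ 2 ^ 200) (r3 : (rc : ℤ) ≤ 2 ^ 200)
    (ht : lfT a b c d e f g h i (Nat.add CH (Nat.mul N2 ra)) (Nat.add CH (Nat.mul N2 rb))
      (Nat.add CH (Nat.mul N2 rc)) CH s = true) (v : Fin 3 → ℂ) :
    rf ⟨ra, rb, rc⟩ v ≤ ev (mkH (xa : ℝ) xb xc ((xd : ℂ) + (xe : ℂ) * I) ((xf : ℂ) + (xg : ℂ) * I)
      ((xh : ℂ) + (xi : ℂ) * I)) v := by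
  have kk : ∀ {x : ℤ}, |x| ≤ 2 ^ 142 → |zv (zC x)| ≤ 2 ^ 200 := by
    intro x hx
    rw [zv_zC]
    exact hx.trans (by norm_num)
  have k1 : ∀ {n : ℕ} {x : ℤ} {r : ℕ} (k : ℕ), PAK.Rep M2 n (x - r) →
      PAK.Rep M2 n (zv (zC x) - (r + ((0 : ℕ) : ℤ) * sl 0 k + ((0 : ℕ) : ℤ) * sl 0 k)) := by
    intro n x r k hr
    rw [zv_zC]
    have e : x - (r + ((0 : ℕ) : ℤ) * sl 0 k + ((0 : ℕ) : ℤ) * sl 0 k) = x - r := by
      push_cast; ring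
    rw [e]; exact hr
  have k2 : ∀ {n : ℕ} {x : ℤ} (k : ℕ), PAK.Rep M2 n x →
      PAK.Rep M2 n (zv (zC x) - (0 + ((0 : ℕ) : ℤ) * sl 0 k + ((0 : ℕ) : ℤ) * sl 0 k)) := by
    intro n x k hr
    rw [zv_zC]
    have e : x - (0 + ((0 : ℕ) : ℤ) * sl 0 k + ((0 : ℕ) : ℤ) * sl 0 k) = x := by
      push_cast; ring
    rw [e]; exact hr
  have h2 := tst_gen (a := ⟨zC xa, zC 0⟩) (b := ⟨zC xb, zC 0⟩) (c := ⟨zC xc, zC 0⟩)
    (x := ⟨zC xd, zC xe⟩) (y := ⟨zC xf, zC xg⟩) (w := ⟨zC xh, zC xi⟩) (R := ⟨ra, rb, rc⟩)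
    (l := 0) (m := 0) (E := 0) (F := 0)
    ⟨kk ka.2, kk kb.2, kk kc.2, kk kd.2, kk ke.2, kk kf.2, kk kg.2, kk kh.2, kk ki.2⟩
    r1 r2 r3 (by positivity) (by positivity)
    (k1 _ (rep_dg ka.1)) (k1 _ (rep_dg kb.1)) (k1 _ (rep_dg kc.1)) (k2 _ (rep_dg0 kd.1))
    (k2 _ (rep_dg0 ke.1)) (k2 _ (rep_dg0 kf.1)) (k2 _ (rep_dg0 kg.1)) (k2 _ (rep_dg0 kh.1))
    (k2 _ (rep_dg0 ki.1)) ht v
  rw [Nat.cast_zero, zero_mul, zero_add, zero_add] at h2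
  have e1 : ∀ x y : ℤ, cz ⟨zC x, zC y⟩ = (x : ℂ) + (y : ℂ) * I := by
    intro x y
    apply Complex.ext
    · show ((zv (zC x) : ℤ) : ℝ) = _
      rw [zv_zC]; simp
    · show ((zv (zC y) : ℤ) : ℝ) = _
      rw [zv_zC]; simp
  have e2 : ∀ x : ℤ, (cz ⟨zC x, zC 0⟩).re = x := by
    intro x
    rw [e1]; simp
  unfold cf at h2
  rw [e2, e2, e2, e1, e1, e1] at h2
  exact h2

/-! ### the test -/

theorem rad3_eq (D a x y p q r : ℕ) :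
    ((rad3 D a x y p q r : ℕ) : ℝ) = 4 ^ D * (a + wr x p q + wr y p r) := by
  show (((a + wr x p q + wr y p r) <<< (2 * D) : ℕ) : ℝ) = _
  rw [Nat.shiftLeft_eq, pow_mul]
  push_cast
  ring

theorem rad3_ge (D a x y : ℕ) {p q r : ℕ} (hq : 0 < q) (hr : 0 < r) :
    (4 : ℝ) ^ D * a + 4 ^ D * x * (p / q) + 4 ^ D * y * (p / r) ≤ (rad3 D a x y p q r : ℕ) := by
  rw [rad3_eq]
  have h1 := wr_ge x p q hq
  have h2 := wr_ge y p r hr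
  rw [mul_div_assoc] at h1 h2
  have p4 : (0 : ℝ) < 4 ^ D := by positivity
  nlinarith [mul_le_mul_of_nonneg_left h1 p4.le, mul_le_mul_of_nonneg_left h2 p4.le]

/-- THE TEST OF A SUM OF FORMS IS SOUND -/
theorem ltK_sound (hV : VwOK D lf V) (hP : PT D t) {d : D3} {p : List (ℝ × Hm ℝ)}
    {l : List (SH (Mo α) (H6 (Mo α)))}
    (h : List.Forall₂ (SOK (TOK D lf t) (HOK (TOK D lf t))) p l) (hl : ltK (CC D) V d l = true)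
    (v : Fin 3 → ℂ) : 0 ≤ (p.map fun x => x.1 * ev x.2 v).sum := by
  unfold ltK tst2 at hl
  obtain ⟨hd, hl⟩ := andB_iff'.mp hl
  obtain ⟨hd0, hd⟩ := andB_iff'.mp hd
  obtain ⟨hd1, hd2⟩ := andB_iff'.mp hd
  have d0 : 0 < d.x := Nat.le_of_ble_eq_true hd0
  have d1 : 0 < d.y := Nat.le_of_ble_eq_true hd1
  have d2 : 0 < d.z := Nat.le_of_ble_eq_true hd2
  obtain ⟨hk, hl⟩ := andB_iff'.mp hl
  obtain ⟨ha, hb, hc, hx, hy, hw⟩ := smA_ok hV hP h hk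
  generalize smA V l = z at *
  unfold tst3 tst4 at hl
  rw [CC_D] at hl
  obtain ⟨hr, hl⟩ := andB_iff'.mp hl
  obtain ⟨hQ, hl⟩ := andB_iff'.mp hl
  have hr' : rad3 D z.R.a z.R.x z.R.y d.x d.y d.z + rad3 D z.R.b z.R.x z.R.w d.y d.x d.z +
      rad3 D z.R.c z.R.y z.R.w d.z d.x d.y ≤ 2 ^ 200 := Nat.le_of_ble_eq_true hr
  have hQ' : 24 ^ D * z.Q ≤ 2 ^ 142 := Nat.le_of_ble_eq_true hQ
  have hQ2 : (4 : ℤ) ^ D * (6 ^ D * z.Q) ≤ 2 ^ 142 := by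
    have e : (4 : ℤ) ^ D * (6 ^ D * z.Q) = 24 ^ D * z.Q := by
      rw [← mul_assoc, ← mul_pow]; norm_num
    rw [e]
    exact_mod_cast hQ'
  have hQ0 : (0 : ℤ) ≤ 6 ^ D * z.Q := by positivity
  have g1 := rad3_ge D z.R.a z.R.x z.R.y (p := d.x) d1 d2
  have g2 := rad3_ge D z.R.b z.R.x z.R.w (p := d.y) d0 d2
  have g3 := rad3_ge D z.R.c z.R.y z.R.w (p := d.z) d0 d1
  generalize rad3 D z.R.a z.R.x z.R.y d.x d.y d.z = ra at *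
  generalize rad3 D z.R.b z.R.x z.R.w d.y d.x d.z = rb at *
  generalize rad3 D z.R.c z.R.y z.R.w d.z d.x d.y = rc at *
  have r1 : (ra : ℤ) ≤ 2 ^ 200 := by exact_mod_cast (show ra ≤ 2 ^ 200 by omega)
  have r2 : (rb : ℤ) ≤ 2 ^ 200 := by exact_mod_cast (show rb ≤ 2 ^ 200 by omega)
  have r3 : (rc : ℤ) ≤ 2 ^ 200 := by exact_mod_cast (show rc ≤ 2 ^ 200 by omega)
  obtain ⟨Ea, a1, a2, a3⟩ := ha
  obtain ⟨Eb, b1, b2, b3⟩ := hb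
  obtain ⟨Ec, c1, c2, c3⟩ := hc
  obtain ⟨Ex, Fx, x1, x2, x3, x4, x5⟩ := hx
  obtain ⟨Ey, Fy, y1, y2, y3, y4, y5⟩ := hy
  obtain ⟨Ew, Fw, w1, w2, w3, w4, w5⟩ := hw
  have key : ∀ u : Vt D, rf ⟨ra, rb, rc⟩ v ≤ ev (mkH ((rdZ D Ea u : ℤ) : ℝ) ((rdZ D Eb u : ℤ) : ℝ)
      ((rdZ D Ec u : ℤ) : ℝ) (((rdZ D Ex u : ℤ) : ℂ) + ((rdZ D Fx u : ℤ) : ℂ) * I)
      (((rdZ D Ey u : ℤ) : ℂ) + ((rdZ D Fy u : ℤ) : ℂ) * I)
      (((rdZ D Ew u : ℤ) : ℂ) + ((rdZ D Fw u : ℤ) : ℂ) * I)) v := by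
    intro u
    have h1 := tall_ok hl u
    have e0 : (nat_lit 0) + pb D u = pb D u := Nat.zero_add _
    rw [e0] at h1
    exact lfT_ok (rdS_ok hQ0 a2 hQ2 a1 u) (rdS_ok hQ0 b2 hQ2 b1 u) (rdS_ok hQ0 c2 hQ2 c1 u)
      (rdS_ok hQ0 x3 hQ2 x1 u) (rdS_ok hQ0 x4 hQ2 x2 u) (rdS_ok hQ0 y3 hQ2 y1 u)
      (rdS_ok hQ0 y4 hQ2 y2 u) (rdS_ok hQ0 w3 hQ2 w1 u) (rdS_ok hQ0 w4 hQ2 w2 u) r1 r2 r3 h1 v
  have hq := hP.w
  have e0 := evs_avg (wtT D t) (fun u => ((rdZ D Ea u : ℤ) : ℂ)) (fun u => ((rdZ D Eb u : ℤ) : ℂ))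
    (fun u => ((rdZ D Ec u : ℤ) : ℂ)) (fun u => ((rdZ D Ex u : ℤ) : ℂ) + ((rdZ D Fx u : ℤ) : ℂ) * I)
    (fun u => ((rdZ D Ey u : ℤ) : ℂ) + ((rdZ D Fy u : ℤ) : ℂ) * I)
    (fun u => ((rdZ D Ew u : ℤ) : ℂ) + ((rdZ D Fw u : ℤ) : ℂ) * I) v
  simp only [Complex.intCast_re] at e0
  have h3 : rf ⟨ra, rb, rc⟩ v ≤ ∑ u, wtT D t u * ev (mkH ((rdZ D Ea u : ℤ) : ℝ)
      ((rdZ D Eb u : ℤ) : ℝ) ((rdZ D Ec u : ℤ) : ℝ)
      (((rdZ D Ex u : ℤ) : ℂ) + ((rdZ D Fx u : ℤ) : ℂ) * I)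
      (((rdZ D Ey u : ℤ) : ℂ) + ((rdZ D Fy u : ℤ) : ℂ) * I)
      (((rdZ D Ew u : ℤ) : ℂ) + ((rdZ D Fw u : ℤ) : ℂ) * I)) v := by
    calc rf ⟨ra, rb, rc⟩ v = ∑ u, wtT D t u * rf ⟨ra, rb, rc⟩ v := by
          rw [← Finset.sum_mul, hq.sum, one_mul]
      _ ≤ _ := Finset.sum_le_sum fun u _ => mul_le_mul_of_nonneg_left (key u) (hq.nonneg u)
  rw [← e0] at h3
  have hU := UU_pos
  have hκ : ((UU * UU * 4 ^ D : ℝ) : ℂ) = (UU : ℂ) * UU * 4 ^ D := by push_cast; ring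
  rw [← hκ] at a3 b3 c3 x5 y5 w5
  have h4 := gewC a3 b3 c3 x5 y5 w5 d0 d1 d2 v
  rw [evs_sum] at h4
  have n0 := normSq_nonneg (v 0)
  have n1 := normSq_nonneg (v 1)
  have n2 := normSq_nonneg (v 2)
  have k1 := mul_le_mul_of_nonneg_right g1 n0
  have k2 := mul_le_mul_of_nonneg_right g2 n1
  have k3 := mul_le_mul_of_nonneg_right g3 n2
  have er : rf ⟨ra, rb, rc⟩ v = (ra : ℝ) * normSq (v 0) + (rb : ℝ) * normSq (v 1) +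
      (rc : ℝ) * normSq (v 2) := rfl
  rw [er] at h3
  have h5 : 0 ≤ UU * UU * 4 ^ D * (p.map fun x => x.1 * ev x.2 v).sum := by linarith
  exact nonneg_of_mul_nonneg_right h5 (by positivity)

end Pool.Agent.Helper57.KNK
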