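import Pool.Agent.Helper57.KNK.PL
import Pool.Agent.Helper57.KNB.KC7
import Pool.Agent.Helper57.KNB.KS1

/-!
Packed machine of the classes with tails (MP_c75db0): THE TESTS OF THE FAMILIES OF TYPE A AND B.
-/

set_option autoImplicit false
noncomputable section
namespace Pool.Agent.Helper57.KNK

open Pool.Agent.Helper86.CT (Mo Mc Vx)
open Pool.Agent.Helper86.CK (PA LC CC lfK)
open Pool.Agent.Helper90.C75 (Vt)
open Pool.Agent.Helper90.KMT (TOK PT AOK UOK TLW)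
open Pool.Agent.Helper57.KNB (HOK ArS famR famR_ok FamTOK chBN chBN_ok BXT BXOK chBNs chBNo VLw FDT)

variable {D : ℕ} {β p v γ : Type} {C : LC}

/-- THE TEST OF THE A FAMILY OF ONE WALL, packed -/
def famK (hC : C = CC D ∧ D ≤ 4) (K : Mc (PA D) β p v γ) (V : Vx β) (KT : β) (Q : FDT β)
    (l k k' u z : Mo (PA D)) : Bool :=
  famR K V (arK hC) (fun x => x) KT Q l k k' u z

/-- THE B TESTS OF A NEAR CELL, packed -/
def chBK (hC : C = CC D ∧ D ≤ 4) (K : Mc (PA D) β p v γ) (V : Vx β) : BXT (PA D) β :=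
  chBN K V (arK hC) (fun x => x)

/-- one orientation -/
def chBKs (s : Bool) (hC : C = CC D ∧ D ≤ 4) (K : Mc (PA D) β p v γ) (V : Vx β) : BXT (PA D) β :=
  chBNs s K V (arK hC) (fun x => x)

variable {mf : (ℕ → ℝ) → β → (ℕ → ℝ) → ℝ}

theorem famK_ok (hC : C = CC D ∧ D ≤ 4) {K : Mc (PA D) β p v γ} {V : Vx β}
    (hA : AOK D lfK K.A) (hU : UOK D lfK mf K.U) (hw : K.w * 2 ^ D = 2 ^ 28) (hV : VLw D mf V) :
    FamTOK D lfK mf (famK hC K V) :=
  famR_ok hA hU hw hV fun {t} hP => ⟨TOK D lfK t, HOK (TOK D lfK t), arK_sound hC hP, fun h => h⟩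

theorem chBK_ok (hC : C = CC D ∧ D ≤ 4) {K : Mc (PA D) β p v γ} {V : Vx β}
    (hA : AOK D lfK K.A) (hU : UOK D lfK mf K.U) (hw : K.w * 2 ^ D = 2 ^ 28) (hV : VLw D mf V)
    (hT : TLW D lfK K.T) : BXOK D lfK mf (chBK hC K V) :=
  chBN_ok hA hU hw hV hT fun {t} hP =>
    ⟨TOK D lfK t, HOK (TOK D lfK t), arK_sound hC hP, fun h => h⟩

end Pool.Agent.Helper57.KNK
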