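import Pool.Agent.Helper57.KNK.P5
import Pool.Agent.Helper86.CK.KA

/-!
Packed machine of the classes with tails (MP_c75db0): the arithmetic `arK` of the packed models.
-/

set_option autoImplicit false
set_option exponentiation.threshold 4000
noncomputable section
namespace Pool.Agent.Helper57.KNK

open Pool.Agent.Helper86.C75 (Z)
open Pool.Agent.Helper86.CX (andB Hm mkH ev E3 Cx)
open Pool.Agent.Helper86.CT (Mo)
open Pool.Agent.Helper86.CK
open Pool.Agent.Helper90.C75 (Vt)
open Pool.Agent.Helper90.KMO (zv cz UU)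
open Pool.Agent.Helper90.KMT (TOK VT PT)
open Pool.Agent.Helper57.KNB (H6 SH D3 SOK HOK Lw LwOK Ar ArS arT arT_sound)
open Pool.Agent.Helper17.KPT (FSh)

/-! ### list of the control values -/

def rvD (l : List DC) : List DC → List DC :=
  List.rec (motive := fun _ => List DC → List DC) (fun a => a) (fun d _ ih a => ih (d :: a)) l
def lfC (U V m s : Nat) : Cx := ⟨dg m s U, dg m s V⟩
/-- outermost direction first -/
def lvr (U V : Nat) (l : List DC) : List Bool → Nat → Nat → List Cx → List Cx :=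
  List.rec (motive := fun _ => List Bool → Nat → Nat → List Cx → List Cx)
    (fun _ m s acc => lfC U V m s :: acc)
    (fun d _ ih sh m s acc => List.rec (motive := fun _ => List Cx) (lfC U V m s :: acc)
      (fun b r _ => Bool.rec (motive := fun _ => List Cx) (ih r m s acc)
        (ih r m s (ih r (Nat.add m (nat_lit 1)) (Nat.add s d.s) (ih r m (Nat.add s d.s2) acc))) b) sh) l
def lvK1 (C : LC) (sh : List Bool) (x y : Z) (acc : List Cx) : List Cx :=
  lvr (ofs (Nat.mul HB C.o3) x) (ofs (Nat.mul HB C.o3) y) (rvD C.ds []) sh (nat_lit 0) (nat_lit 0) acc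

theorem rvD_eq (l a : List DC) : rvD l a = l.reverse ++ a := by
  induction l generalizing a with
  | nil => rfl
  | cons d l ih =>
    show rvD l (d :: a) = _
    rw [ih]; simp

theorem lvr_cons (U V : ℕ) (d : DC) (l : List DC) (b : Bool) (r : List Bool) (m s : ℕ)
    (acc : List Cx) : lvr U V (d :: l) (b :: r) m s acc =
      Bool.rec (motive := fun _ => List Cx) (lvr U V l r m s acc)
        (lvr U V l r m s (lvr U V l r (Nat.add m (nat_lit 1)) (Nat.add s d.s)
          (lvr U V l r m (Nat.add s d.s2) acc))) b := rfl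
theorem lvr_nil (U V : ℕ) (d : DC) (l : List DC) (m s : ℕ) (acc : List Cx) :
    lvr U V (d :: l) [] m s acc = lfC U V m s :: acc := rfl

theorem lvr_map (W U V : ℕ) (l : List DC) (r : List Bool) (m s : ℕ) (acc : List Cx) :
    lvr U V (l.map (scD W)) r m s acc = lvr U V l r m s acc := by
  induction l generalizing r m s acc with
  | nil => rfl
  | cons d l ih =>
    cases r with
    | nil => rfl
    | cons b r =>
      rw [List.map_cons, lvr_cons, lvr_cons]
      cases b with
      | false => exact ih ..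
      | true =>
        show lvr U V (l.map (scD W)) r m s (lvr U V (l.map (scD W)) r (Nat.add m 1) (Nat.add s d.s)
          (lvr U V (l.map (scD W)) r m (Nat.add s d.s2) acc)) = _
        rw [ih, ih, ih]

theorem lvr_mem (U V : ℕ) (l : List DC) : ∀ (r : List Bool) (m s : ℕ) (acc : List Cx),
    ∀ c ∈ acc, c ∈ lvr U V l r m s acc := by
  induction l with
  | nil => intro r m s acc c hc; exact List.mem_cons_of_mem _ hc
  | cons d l ih =>
    intro r m s acc c hc
    cases r with
    | nil => exact List.mem_cons_of_mem _ hc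
    | cons b r =>
      rw [lvr_cons]
      cases b with
      | false => exact ih _ _ _ _ c hc
      | true => exact ih _ _ _ _ c (ih _ _ _ _ c (ih _ _ _ _ c hc))

theorem lvr_ok {D : ℕ} {l : List Bool} {I : Vt D → ℤ × ℤ} {m s U V : ℕ} (hs : FSh D l I)
    (hm : m + D ≤ 80) (hI : ∀ v, |(I v).1| ≤ 2 ^ 60 ∧ |(I v).2| ≤ 2 ^ 60)
    (hU : ∀ v, (U >>> (s + pb D v)) % 2 ^ 144 = (2 ^ 143 + 2 ^ (m + mi D v) * (I v).1).toNat)
    (hV : ∀ v, (V >>> (s + pb D v)) % 2 ^ 144 = (2 ^ 143 + 2 ^ (m + mi D v) * (I v).2).toNat)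
    (acc : List Cx) (v : Vt D) : zC2 (I v) ∈ lvr U V (CC D).ds.reverse l m s acc := by
  induction D generalizing l m s acc with
  | zero =>
    have e1 : dg (m + 0) (s + 0) U = zC (I ()).1 := dg_ok (by omega) (hI ()).1 (hU ())
    have e2 : dg (m + 0) (s + 0) V = zC (I ()).2 := dg_ok (by omega) (hI ()).2 (hV ())
    rw [add_zero, add_zero] at e1 e2
    show zC2 (I ()) ∈ lfC U V m s :: acc
    have e : zC2 (I ()) = lfC U V m s := by
      unfold lfC zC2
      rw [e1, e2]
    rw [e]
    exact List.mem_cons_self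
  | succ D ih =>
    cases l with
    | nil => exact hs.elim
    | cons b l =>
      have e : (CC (D + 1)).ds.reverse = nwD (ww D) (Wn D) (CC D).o5 (CC D).o3 ::
          ((CC D).ds.reverse).map (scD (Wn D)) := by
        rw [CC_ds_succ, List.reverse_append, List.map_reverse]
        rfl
      rw [e, lvr_cons]
      have key : ∀ (i : Fin 3) (m' s' : ℕ), FSh D l (fun u => I (u, i)) →
          m' = m + (if i = 1 then 1 else 0) → s' = s + (i : ℕ) * ww D → ∀ (acc : List Cx) (u : Vt D),
          zC2 (I (u, i)) ∈ lvr U V (((CC D).ds.reverse).map (scD (Wn D))) l m' s' acc := by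
        intro i m' s' hsl hm' hs' acc u
        rw [lvr_map]
        refine ih (I := fun u => I (u, i)) hsl ?_ (fun v => hI (v, i)) (fun v => ?_) (fun v => ?_) acc u
        · rw [hm']; split <;> omega
        · have h := hU (v, i)
          have e1 : s + pb (D + 1) (v, i) = s' + pb D v := by
            rw [hs']; show s + (pb D v + (i : ℕ) * ww D) = _; ring
          have e2 : m + mi (D + 1) (v, i) = m' + mi D v := by
            rw [hm']; show m + (mi D v + if i = 1 then 1 else 0) = _; ring
          rw [e1, e2] at h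
          exact h
        · have h := hV (v, i)
          have e1 : s + pb (D + 1) (v, i) = s' + pb D v := by
            rw [hs']; show s + (pb D v + (i : ℕ) * ww D) = _; ring
          have e2 : m + mi (D + 1) (v, i) = m' + mi D v := by
            rw [hm']; show m + (mi D v + if i = 1 then 1 else 0) = _; ring
          rw [e1, e2] at h
          exact h
      obtain ⟨u, i⟩ := v
      cases b with
      | false =>
        have h0 : FSh D l (fun u => I (u, 0)) := hs.2
        have hi : I (u, i) = I (u, 0) := hs.1 u i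
        rw [hi]
        exact key 0 m s h0 (by simp) (by simp) acc u
      | true =>
        fin_cases i
        · exact key 0 m s (hs 0) (by simp) (by simp) _ u
        · refine lvr_mem _ _ _ _ _ _ _ _ ?_
          refine key 1 _ _ (hs 1) (by simp) ?_ _ u
          show s + ww D = s + 1 * ww D
          ring
        · refine lvr_mem _ _ _ _ _ _ _ _ (lvr_mem _ _ _ _ _ _ _ _ ?_)
          refine key 2 _ _ (hs 2) (by simp) ?_ acc u
          show s + 2 * ww D = s + 2 * ww D
          ring

variable {D : ℕ}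

/-- all control values, as a list -/
def lvK (C : LC) (X : PA D) (acc : List Cx) : List Cx :=
  Bool.rec (motive := fun _ => List Cx) ((Finset.univ : Finset (Vt D)).toList.map (lcK X) ++ acc)
    (lvK1 C X.sh X.re X.im acc) X.ok

theorem lvK_acc (C : LC) (X : PA D) (acc : List Cx) : ∀ c ∈ acc, c ∈ lvK C X acc := by
  intro c hc
  unfold lvK
  cases X.ok with
  | false => exact List.mem_append_right _ hc
  | true => exact lvr_mem _ _ _ _ _ _ _ c hc

theorem lvK_ok {C : LC} (hC : C = CC D ∧ D ≤ 4) (X : PA D) (acc : List Cx) (v : Vt D) :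
    ∃ c ∈ lvK C X acc, lfK X v = cz c := by
  obtain ⟨rfl, hD⟩ := hC
  refine ⟨lcK X v, ?_, rfl⟩
  unfold lvK
  cases h : X.ok with
  | false =>
    refine List.mem_append_left _ ?_
    rw [List.mem_map]
    exact ⟨v, by simp, rfl⟩
  | true =>
    have a := X.h h
    show zC2 (X.I v) ∈ lvr _ _ (rvD (CC D).ds []) X.sh 0 0 acc
    rw [rvD_eq, List.append_nil]
    refine lvr_ok X.hs (by omega) (fun v => ⟨a.a v, a.b v⟩) (fun v => ?_) (fun v => ?_) acc v
    · rw [Nat.zero_add, Nat.zero_add]
      exact ofs_dig (F := fun v => (X.I v).1) (by omega) a.a a.x v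
    · rw [Nat.zero_add, Nat.zero_add]
      exact ofs_dig (F := fun v => (X.I v).2) (by omega) a.b a.y v

/-! ### real and imaginary parts -/

theorem zz_pk : zv zz = pkZ D (fun _ => (0 : ℤ)) := by
  rw [Pool.Agent.Helper57.KNK.pkZ_const, zero_mul]
  rfl

theorem re_h (X : PA D) (h : X.ok = true) : PR D (fun v => ((X.I v).1, (0 : ℤ))) X.re zz := by
  have a := X.h h
  exact ⟨a.x, zz_pk, a.a, fun _ => by simp⟩
theorem im_h (X : PA D) (h : X.ok = true) : PR D (fun v => ((X.I v).2, (0 : ℤ))) X.im zz := by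
  have a := X.h h
  exact ⟨a.y, zz_pk, a.b, fun _ => by simp⟩
theorem re_hk (X : PA D) (h : X.k = true) : ∃ c : ℤ × ℤ, ∀ v, ((X.I v).1, (0 : ℤ)) = c := by
  obtain ⟨a, ha⟩ := X.hk h
  exact ⟨(a.1, 0), fun v => by rw [ha]⟩
theorem im_hk (X : PA D) (h : X.k = true) : ∃ c : ℤ × ℤ, ∀ v, ((X.I v).2, (0 : ℤ)) = c := by
  obtain ⟨a, ha⟩ := X.hk h
  exact ⟨(a.2, 0), fun v => by rw [ha]⟩

def reK (X : PA D) : PA D :=
  ⟨fun v => ((X.I v).1, 0), X.sh, X.re, zz, X.ok, X.k, X.hs.map fun a => (a.1, 0), re_h X, re_hk X⟩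
def imK (X : PA D) : PA D :=
  ⟨fun v => ((X.I v).2, 0), X.sh, X.im, zz, X.ok, X.k, X.hs.map fun a => (a.2, 0), im_h X, im_hk X⟩

/-- leafwise operations (no test: sums of forms are tested by `ltK`) -/
def LwK (C : LC) : Lw (PA D) := ⟨reK, imK, lvK C, fun _ _ _ _ _ _ _ => false⟩

theorem LwK_ok {C : LC} (hC : C = CC D ∧ D ≤ 4) : LwOK D lfK (LwK (D := D) C) := by
  refine ⟨fun x v => ?_, fun x v => ?_, fun x l => lvK_acc C x l, fun x l v => lvK_ok hC x l v,
    fun {R a b c x y w} h => ?_⟩
  · rw [lfK_eq, lfK_eq]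
    show ((x.I v).1 : ℂ) + ((0 : ℤ) : ℂ) * Complex.I = _
    unfold cI
    simp
  · rw [lfK_eq, lfK_eq]
    show ((x.I v).2 : ℂ) + ((0 : ℤ) : ℂ) * Complex.I = _
    unfold cI
    simp
  · exact absurd h (by simp [LwK])

def VK : Vw (PA D) := ⟨fun x => x.re, fun x => x.im, fun x => x.ok, fun x => x.k⟩

theorem VK_ok : VwOK D lfK (VK : Vw (PA D)) := by
  refine ⟨fun {x} h => ?_, fun {x} h => ?_⟩
  · have a := x.h h
    exact ⟨x.I, a.x, a.y, a.a, fun v => lfK_eq x v⟩
  · obtain ⟨c, hc⟩ := x.hk h
    exact ⟨(c.1 : ℂ) + (c.2 : ℂ) * Complex.I, fun v => by rw [lfK_eq]; unfold cI; rw [hc]⟩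

/-- THE PACKED ARITHMETIC -/
def arK {C : LC} (hC : C = CC D ∧ D ≤ 4) : Ar (Mo (PA D)) (H6 (Mo (PA D))) :=
  { arT (AK hC) (LwK C) with lt := ltK C VK }

theorem arK_sound {C : LC} (hC : C = CC D ∧ D ≤ 4) {t : ℕ → ℝ} (hP : PT D t) :
    ArS (arK hC) (TOK D lfK t) (HOK (TOK D lfK t)) := by
  have hS := arT_sound (AOKK hC) (LwK_ok hC) hP
  exact
  { add := hS.add
    sub := hS.sub
    mul := hS.mul
    cj := hS.cj
    re := hS.re
    im := hS.im
    inv := hS.inv
    cs := hS.cs
    wd := hS.wd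
    nb := hS.nb
    ctl := hS.ctl
    dot := hS.dot
    pk := hS.pk
    lt := fun {d l p} h hl v => by
      obtain ⟨rfl, _⟩ := hC
      exact ltK_sound VK_ok hP h hl v }

end Pool.Agent.Helper57.KNK
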