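import Pool.Agent.Helper86.CK.KD

/-!
Packed machine of the classes with tails (MP_c75db0): product of packed numbers, a constant factor
costs a small number times a big one. Kernel side.
-/

set_option autoImplicit false
noncomputable section
namespace Pool.Agent.Helper57.KNK

open Pool.Agent.Helper86.C75 (Z)
open Pool.Agent.Helper86.CK (LC DC B1)

/-- all directions are constant -/
def alf (l : List Bool) : Bool :=
  List.rec (motive := fun _ => Bool) true
    (fun b _ ih => Bool.rec (motive := fun _ => Bool) ih false b) l

/-- times `1 + 2 ^ s` -/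
def sh1 (s n : Nat) : Nat := Nat.add n (Nat.shiftLeft n s)
/-- times `od` -/
def odN (l : List DC) : Nat → Nat :=
  List.rec (motive := fun _ => Nat → Nat) (fun n => n)
    (fun d _ ih n => ih (sh1 d.s (sh1 d.s n))) l
def odm (C : LC) (z : Z) : Z :=
  Z.rec (motive := fun _ => Z) (fun n => Z.p (odN C.ds n)) (fun n => Z.m (odN C.ds n)) z
/-- the value of a constant: digit `0` of the absolute value -/
def low (z : Z) : Z :=
  Z.rec (motive := fun _ => Z) (fun n => Z.p (Nat.land n B1)) (fun n => Z.m (Nat.land n B1)) z
/-- THE PRODUCT OF PACKED NUMBERS of shapes `s`, `t` -/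
def pm (C : LC) (s t : List Bool) (x y : Z) : Z :=
  Bool.rec (motive := fun _ => Z)
    (Bool.rec (motive := fun _ => Z) (Z.mul x y) (odm C (Z.mul (low y) x)) (alf t))
    (odm C (Z.mul (low x) y)) (alf s)

end Pool.Agent.Helper57.KNK
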