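import Pool.Agent.Helper57.KNK.PM
import Pool.Agent.Helper57.KNB.KT1

/-!
Packed machine of the classes with tails (MP_c75db0): test of a sum of forms with real scalars. The
products are summed before the reduction, constant scalars cost a small number times a big one.
Kernel side.
-/

set_option autoImplicit false
noncomputable section
namespace Pool.Agent.Helper57.KNK

open Pool.Agent.Helper86.C75 (Z)
open Pool.Agent.Helper86.CX (Cx andB psd1 N2)
open Pool.Agent.Helper86.CT (Mo er)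
open Pool.Agent.Helper86.CK (LC DC B1 HB ofs stgs)
open Pool.Agent.Helper39.KNF (wr)
open Pool.Agent.Helper57.KNB (H6 SH D3)

/-- packed numbers of a function: real and imaginary part, validity, constant -/
structure Vw (α : Type) where
  re : α → Z
  im : α → Z
  ok : α → Bool
  k : α → Bool

/-- nine numbers: entries `00, 11, 22, Re 01, Im 01, Re 02, Im 02, Re 12, Im 12` -/
structure N9 where
  a : Z
  b : Z
  c : Z
  d : Z
  e : Z
  f : Z
  g : Z
  h : Z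
  i : Z
/-- radii of the six entries, in units `2 ^ (-96)` -/
structure R6 where
  a : Nat
  b : Nat
  c : Nat
  x : Nat
  y : Nat
  w : Nat

/-- sums: products with constants, other products, radii, sizes, validity -/
structure AC where
  K : N9
  G : N9
  R : R6
  Q : Nat
  ok : Bool

def zz : Z := Z.p (nat_lit 0)
def n90 : N9 := ⟨zz, zz, zz, zz, zz, zz, zz, zz, zz⟩
def ac0 : AC := ⟨n90, n90, ⟨nat_lit 0, nat_lit 0, nat_lit 0, nat_lit 0, nat_lit 0, nat_lit 0⟩,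
  nat_lit 0, true⟩

variable {α : Type}

def am (f x z : Z) : Z := Z.add (Z.mul f x) z
def sm9 (V : Vw α) (f : Z) (h : H6 (Mo α)) (z : N9) : N9 :=
  ⟨am f (V.re h.a.v) z.a, am f (V.re h.b.v) z.b, am f (V.re h.c.v) z.c, am f (V.re h.x.v) z.d,
    am f (V.im h.x.v) z.e, am f (V.re h.y.v) z.f, am f (V.im h.y.v) z.g, am f (V.re h.w.v) z.h,
    am f (V.im h.w.v) z.i⟩
def rt (e : Nat) (s m : Mo α) (R : Nat) : Nat :=
  Nat.add (Nat.add (Nat.add (Nat.add (Nat.mul s.r m.B) (Nat.mul m.r s.B)) (Nat.mul s.r m.r)) e) R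
def rC (s : Mo α) (h : H6 (Mo α)) (R : R6) : R6 :=
  ⟨rt (nat_lit 0) s h.a R.a, rt (nat_lit 0) s h.b R.b, rt (nat_lit 0) s h.c R.c,
    rt (nat_lit 0) s h.x R.x, rt (nat_lit 0) s h.y R.y, rt (nat_lit 0) s h.w R.w⟩
def rG (s : Mo α) (h : H6 (Mo α)) (R : R6) : R6 :=
  ⟨rt (er s.l h.a.l) s h.a R.a, rt (er s.l h.b.l) s h.b R.b, rt (er s.l h.c.l) s h.c R.c,
    rt (er s.l h.x.l) s h.x R.x, rt (er s.l h.y.l) s h.y R.y, rt (er s.l h.w.l) s h.w R.w⟩
def qS (s : Mo α) (h : H6 (Mo α)) (Q : Nat) : Nat :=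
  Nat.add (Nat.mul s.B (Nat.add (Nat.add (Nat.add (Nat.add (Nat.add h.a.B h.b.B) h.c.B) h.x.B) h.y.B) h.w.B)) Q
def okH (V : Vw α) (s : Mo α) (h : H6 (Mo α)) (b : Bool) : Bool :=
  andB (V.ok s.v) (andB (V.ok h.a.v) (andB (V.ok h.b.v) (andB (V.ok h.c.v) (andB (V.ok h.x.v)
    (andB (V.ok h.y.v) (andB (V.ok h.w.v) b))))))
def stK (V : Vw α) (s : Mo α) (h : H6 (Mo α)) (z : AC) : AC :=
  ⟨sm9 V (low (V.re s.v)) h z.K, z.G, rC s h z.R, qS s h z.Q, okH V s h z.ok⟩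
def stG (V : Vw α) (s : Mo α) (h : H6 (Mo α)) (z : AC) : AC :=
  ⟨z.K, sm9 V (V.re s.v) h z.G, rG s h z.R, qS s h z.Q, okH V s h z.ok⟩
def st1 (V : Vw α) (x : SH (Mo α) (H6 (Mo α))) (z : AC) : AC :=
  Bool.rec (motive := fun _ => AC) (stG V x.s x.h z) (stK V x.s x.h z) (V.k x.s.v)
def smA (V : Vw α) (l : List (SH (Mo α) (H6 (Mo α)))) : AC :=
  List.rec (motive := fun _ => AC) ac0 (fun x _ ih => st1 V x ih) l

/-- the reduced sum: digits `2 ^ 143 + 4 ^ D s` -/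
def rdS (C : LC) (K G : Z) : Nat := stgs C.ds (ofs (Nat.mul HB C.o5) (Z.add G (odm C K)))

/-- digit at the position `s` -/
def dgt (U s : Nat) : Nat := Nat.land (Nat.shiftRight U s) B1
/-- `2 ^ 1152 - 2 ^ 143` -/
def CH : Nat := Nat.sub (Nat.add N2 (nat_lit 1)) HB
def lfT (a b c d e f g h i ka kb kc k0 s : Nat) : Bool :=
  psd1 (Nat.add (dgt a s) ka) (Nat.add (dgt b s) kb) (Nat.add (dgt c s) kc)
    (Nat.add (dgt d s) k0) (Nat.add (dgt e s) k0) (Nat.add (dgt f s) k0) (Nat.add (dgt g s) k0)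
    (Nat.add (dgt h s) k0) (Nat.add (dgt i s) k0)
/-- at all control points -/
def tall (l : List DC) (f : Nat → Bool) : Nat → Bool :=
  List.rec (motive := fun _ => Nat → Bool) f
    (fun d _ ih s => andB (ih s) (andB (ih (Nat.add s d.s)) (ih (Nat.add s d.s2)))) l

/-- weighted radii, times `4 ^ D` -/
def rad3 (D : Nat) (a x y p q r : Nat) : Nat :=
  Nat.shiftLeft (Nat.add (Nat.add a (wr x p q)) (wr y p r)) (Nat.mul (nat_lit 2) D)
def tst5 (C : LC) (K G : N9) (ra rb rc : Nat) : Bool :=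
  tall C.ds (lfT (rdS C K.a G.a) (rdS C K.b G.b) (rdS C K.c G.c) (rdS C K.d G.d)
    (rdS C K.e G.e) (rdS C K.f G.f) (rdS C K.g G.g) (rdS C K.h G.h) (rdS C K.i G.i)
    (Nat.add CH (Nat.mul N2 ra)) (Nat.add CH (Nat.mul N2 rb)) (Nat.add CH (Nat.mul N2 rc)) CH)
    (nat_lit 0)
/-- `2 ^ 200`, `2 ^ 142` -/
def tst4 (C : LC) (K G : N9) (Q ra rb rc : Nat) : Bool :=
  andB (Nat.ble (Nat.add (Nat.add ra rb) rc)
      (nat_lit 1606938044258990275541962092341162602522202993782792835301376))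
    (andB (Nat.ble (Nat.mul (Nat.pow (nat_lit 24) C.D) Q)
      (nat_lit 5575186299632655785383929568162090376495104)) (tst5 C K G ra rb rc))
def tst3 (C : LC) (d : D3) (K G : N9) (Q : Nat) (R : R6) : Bool :=
  tst4 C K G Q (rad3 C.D R.a R.x R.y d.x d.y d.z) (rad3 C.D R.b R.x R.w d.y d.x d.z)
    (rad3 C.D R.c R.y R.w d.z d.x d.y)
def tst2 (C : LC) (d : D3) (z : AC) : Bool :=
  andB (andB (Nat.ble (nat_lit 1) d.x) (andB (Nat.ble (nat_lit 1) d.y) (Nat.ble (nat_lit 1) d.z)))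
    (andB z.ok (tst3 C d z.K z.G z.Q z.R))
/-- THE TEST `Σ s H ≥ 0` -/
def ltK (C : LC) (V : Vw α) (d : D3) (l : List (SH (Mo α) (H6 (Mo α)))) : Bool :=
  tst2 C d (smA V l)

end Pool.Agent.Helper57.KNK
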